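import Pool.Agent.MP_824cb5_co.T3.Inv

namespace Pool.Agent.MP_824cb5_co.T3

open Finset

noncomputable section

/-- packed linear form: positive part, negative part, coefficient bound -/
structure PN where
  p : ℕ
  q : ℕ
  m : ℕ

structure En where
  st : Bool
  sg : Bool
  mag : ℕ
  deriving DecidableEq

abbrev Ctx := List En

abbrev Term := ℤ × List ℤ × List ℤ × List ℤ

def sv (e : En) : ℤ := if e.sg = true then -(e.mag : ℤ) else e.mag

def SatE (K : Kr) (v : ℕ → ℤ) (e : En) : Prop :=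
  ∃ x, Rep K v (sv e) 400 x ∧ 0 ≤ x ∧ (e.st = true → 0 < x)

def Sat (K : Kr) (v : ℕ → ℤ) (G : Ctx) : Prop := ∀ e ∈ G, SatE K v e

def e0 : En := ⟨false, false, 0⟩

theorem Sat.nth {K : Kr} {v : ℕ → ℤ} {G : Ctx} (h : Sat K v G) (i : ℕ) : SatE K v (nth e0 G i) :=
  nth_prop (SatE K v) e0 ⟨0, Rep.zero K v _, le_rfl, fun h => by cases h⟩ G h i

theorem Sat.cons {K : Kr} {v : ℕ → ℤ} {G : Ctx} {e : En} (he : SatE K v e) (h : Sat K v G) :
    Sat K v (e :: G) := fun x hx => by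
  rcases List.mem_cons.1 hx with rfl | hx
  · exact he
  · exact h x hx

def pwOf (K : Kr) : List ℕ := (List.range K.n).map fun a => Nat.pow (Nat.mul 2 K.H) (K.e a)

/-- pack a list of integer coefficients -/
def pk (g : List ℤ) : List ℕ → ℕ → ℕ → ℕ → PN :=
  List.rec (motive := fun _ => List ℕ → ℕ → ℕ → ℕ → PN) (fun _ p q m => ⟨p, q, m⟩)
    (fun x _ ih pw p q m => List.rec (motive := fun _ => PN) ⟨p, q, m⟩ (fun w r _ =>
      Int.rec (motive := fun _ => PN)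
        (fun k => ifz k (ih r p q m) (ih r (Nat.add p (Nat.mul k w)) q (Nat.add m k)))
        (fun k => ih r p (Nat.add q (Nat.mul (Nat.succ k) w)) (Nat.add m (Nat.succ k))) x) pw) g

theorem pk_aux (K : Kr) (v : ℕ → ℤ) (g : List ℤ) : ∀ (j : ℕ) (p q m : ℕ) (x : ℤ) (k : ℕ),
    j + k = K.n → Rep K v ((p : ℤ) - q) m x →
    let r := pk g ((List.range' j k).map fun a => Nat.pow (Nat.mul 2 K.H) (K.e a)) p q m
    Rep K v ((r.p : ℤ) - r.q) r.m (x + ∑ a ∈ range k, g.getD a 0 * v (j + a)) := by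
  induction g with
  | nil => intro j p q m x k _ h; simpa [pk] using h
  | cons y t ih =>
    intro j p q m x k hk h
    cases k with
    | zero => simpa [pk] using h
    | succ k =>
      have hx : ((Nat.pow (Nat.mul 2 K.H) (K.e j) : ℕ) : ℤ) = K.x ^ K.e j :=
        Nat.cast_pow (2 * K.H) (K.e j)
      have h1 := h.lin (Rep.var K v j (by omega)) y
      rw [← hx] at h1
      have e : x + ∑ a ∈ range (k + 1), (y :: t).getD a 0 * v (j + a) =
          x + y * v j + ∑ a ∈ range k, t.getD a 0 * v (j + 1 + a) := by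
        rw [sum_range_succ', add_assoc, add_comm (y * v j)]
        congr 2
        exact sum_congr rfl fun a _ => by rw [show j + (a + 1) = j + 1 + a by ring]; rfl
      rw [e]
      cases y with
      | ofNat c =>
        cases c with
        | zero => exact ih (j + 1) p q m _ k (by omega) (h1.cast (by simp) (by simp) rfl)
        | succ c =>
          exact ih (j + 1) (p + (c + 1) * Nat.pow (Nat.mul 2 K.H) (K.e j)) q (m + (c + 1)) _ k
            (by omega) (h1.cast (by simp only [Int.ofNat_eq_natCast]; push_cast; ring)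
              (by rw [mul_one]; exact le_rfl) rfl)
      | negSucc c =>
        exact ih (j + 1) p (q + (c + 1) * Nat.pow (Nat.mul 2 K.H) (K.e j)) (m + (c + 1)) _ k
          (by omega) (h1.cast (by rw [Int.negSucc_eq]; push_cast; ring)
            (by simp [Int.natAbs_negSucc]) rfl)

theorem pk_rep (K : Kr) (v : ℕ → ℤ) (g : List ℤ) :
    Rep K v (((pk g (pwOf K) 0 0 0).p : ℤ) - (pk g (pwOf K) 0 0 0).q) (pk g (pwOf K) 0 0 0).m
      (dot K.n g v) := by
  have := pk_aux K v g 0 0 0 0 0 K.n (by simp) (by simpa using Rep.zero K v 0)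
  simpa [pwOf, List.range_eq_range', dot] using this

/-- turn a packed form into sign and size -/
def mk (a : PN) (k : Bool → ℕ → Bool) : Bool :=
  PN.rec (motive := fun _ => Bool) (fun p q m => Nat.ble m 400 &&
    fN p fun p => fN q fun q => Bool.rec (motive := fun _ => Bool)
      (fN (Nat.sub p q) fun u => k false u) (fN (Nat.sub q p) fun u => k true u) (Nat.ble p q)) a

def enOf (st : Bool) (a : PN) : En :=
  ⟨st, Nat.ble a.p a.q, if Nat.ble a.p a.q = true then a.q - a.p else a.p - a.q⟩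

theorem sv_enOf (st : Bool) (a : PN) : sv (enOf st a) = (a.p : ℤ) - a.q := by
  by_cases h : a.p ≤ a.q
  · simp only [sv, enOf, Nat.ble_eq, if_pos h]; omega
  · simp only [sv, enOf, Nat.ble_eq, if_neg h]; omega

theorem mk_spec (a : PN) (k : Bool → ℕ → Bool) (h : mk a k = true) :
    a.m ≤ 400 ∧ k (enOf false a).sg (enOf false a).mag = true := by
  obtain ⟨p, q, m⟩ := a
  have h' : (Nat.ble m 400 && fN p fun p => fN q fun q => Bool.rec (motive := fun _ => Bool)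
    (fN (Nat.sub p q) fun u => k false u) (fN (Nat.sub q p) fun u => k true u)
      (Nat.ble p q)) = true := h
  rw [fN_eq, fN_eq, fN_eq, fN_eq, Bool.and_eq_true, Nat.ble_eq] at h'
  refine ⟨h'.1, ?_⟩
  have h2 := h'.2
  simp only [enOf]
  cases hb : Nat.ble p q with
  | false => rw [hb] at h2; exact h2
  | true => rw [hb] at h2; exact h2

theorem Rep.en {K : Kr} {v : ℕ → ℤ} {a : PN} {x : ℤ} (ha : Rep K v ((a.p : ℤ) - a.q) a.m x)
    (hm : a.m ≤ 400) (st : Bool) : Rep K v (sv (enOf st a)) 400 x :=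
  ha.cast (sv_enOf st a).symm hm rfl

abbrev CtxL := List (Bool × List ℤ)

def mkG (pw : List ℕ) (G : CtxL) : (Ctx → Bool) → Bool :=
  List.rec (motive := fun _ => (Ctx → Bool) → Bool) (fun k => k [])
    (fun e _ ih k => mk (pk e.2 pw 0 0 0) fun s u => ih fun r => k (⟨e.1, s, u⟩ :: r)) G

def ctxOf (pw : List ℕ) (G : CtxL) : Ctx := G.map fun e => enOf e.1 (pk e.2 pw 0 0 0)

def SatL (n : ℕ) (v : ℕ → ℤ) (G : CtxL) : Prop :=
  ∀ e ∈ G, 0 ≤ dot n e.2 v ∧ (e.1 = true → 0 < dot n e.2 v)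

theorem mkG_spec (pw : List ℕ) (G : CtxL) (k : Ctx → Bool) (h : mkG pw G k = true) :
    (∀ e ∈ G, (pk e.2 pw 0 0 0).m ≤ 400) ∧ k (ctxOf pw G) = true := by
  induction G generalizing k with
  | nil => exact ⟨fun _ h => by simp at h, h⟩
  | cons e t ih =>
    obtain ⟨a1, a2⟩ := mk_spec (pk e.2 pw 0 0 0)
      (fun s u => mkG pw t fun r => k (⟨e.1, s, u⟩ :: r)) h
    obtain ⟨b1, b2⟩ := ih _ a2
    exact ⟨List.forall_mem_cons.2 ⟨a1, b1⟩, b2⟩

theorem sat_ctxOf (K : Kr) (v : ℕ → ℤ) (G : CtxL) (hG : SatL K.n v G)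
    (h : ∀ e ∈ G, (pk e.2 (pwOf K) 0 0 0).m ≤ 400) : Sat K v (ctxOf (pwOf K) G) := by
  intro x hx
  obtain ⟨e, he, rfl⟩ := List.mem_map.1 hx
  exact ⟨_, (pk_rep K v e.2).en (h e he) _, hG e he⟩

def mkD (pw : List ℕ) (D : List CtxL) : (List Ctx → Bool) → Bool :=
  List.rec (motive := fun _ => (List Ctx → Bool) → Bool) (fun k => k [])
    (fun G _ ih k => mkG pw G fun C => ih fun r => k (C :: r)) D

theorem mkD_spec (pw : List ℕ) (D : List CtxL) (k : List Ctx → Bool) (h : mkD pw D k = true) :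
    k (D.map (ctxOf pw)) = true := by
  induction D generalizing k with
  | nil => exact h
  | cons G t ih => exact ih _ (mkG_spec pw G (fun C => mkD pw t fun r => k (C :: r)) h).2

/-- subtract a signed number from the difference of the two accumulators -/
def subT (s : Bool) (t p q : ℕ) (k : ℕ → ℕ → Bool) : Bool :=
  Bool.rec (motive := fun _ => Bool) (fN (Nat.add q t) fun q' => k p q')
    (fN (Nat.add p t) fun p' => k p' q) s

theorem subT_spec (s : Bool) (t p q : ℕ) (k : ℕ → ℕ → Bool) :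
    ∃ p' q' : ℕ, (p' : ℤ) - q' = p - q - (if s = true then -(t : ℤ) else t) ∧
      subT s t p q k = k p' q' := by
  cases s
  · exact ⟨p, q + t, by simp; ring, fN_eq (Nat.add q t) fun q' => k p q'⟩
  · exact ⟨p + t, q, by simp; ring, fN_eq (Nat.add p t) fun p' => k p' q⟩

def xr (a b : Bool) : Bool :=
  Bool.rec (motive := fun _ => Bool) b (Bool.rec (motive := fun _ => Bool) true false b) a

def sub3 (lam : ℕ) (e1 e2 e3 : En) (p q l : ℕ) (k : ℕ → ℕ → ℕ → Bool) : Bool :=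
  En.rec (motive := fun _ => Bool) (fun _ s1 m1 => En.rec (motive := fun _ => Bool)
    (fun _ s2 m2 => En.rec (motive := fun _ => Bool) (fun _ s3 m3 =>
      fN lam fun la => subT (xr s1 (xr s2 s3)) (Nat.mul (Nat.mul la m1) (Nat.mul m2 m3)) p q
        fun p' q' => fN (Nat.add l la) fun l' => k p' q' l') e3) e2) e1

theorem sub3_spec (K : Kr) (v : ℕ → ℤ) (lam : ℕ) (e1 e2 e3 : En) (x1 x2 x3 : ℤ)
    (h1 : Rep K v (sv e1) 400 x1) (h2 : Rep K v (sv e2) 400 x2) (h3 : Rep K v (sv e3) 400 x3)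
    (p q l : ℕ) (x : ℤ) (h : Cub K v ((p : ℤ) - q) l x) (k : ℕ → ℕ → ℕ → Bool) :
    ∃ p' q' l' : ℕ, Cub K v ((p' : ℤ) - q') l' (x - lam * (x1 * x2 * x3)) ∧
      sub3 lam e1 e2 e3 p q l k = k p' q' l' := by
  obtain ⟨t1, s1, m1⟩ := e1
  obtain ⟨t2, s2, m2⟩ := e2
  obtain ⟨t3, s3, m3⟩ := e3
  obtain ⟨p', q', a1, a2⟩ := subT_spec (xr s1 (xr s2 s3)) (lam * m1 * (m2 * m3)) p q
    fun p' q' => fN (Nat.add l lam) fun l' => k p' q' l'
  refine ⟨p', q', l + lam, (h.lin (Cub.prod h1 h2 h3) (-lam)).cast ?_ (by simp) (by ring), ?_⟩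
  · rw [a1]
    cases s1 <;> cases s2 <;> cases s3 <;> simp [sv, xr] <;> ring
  · refine (fN_eq lam fun la => subT (xr s1 (xr s2 s3))
      (Nat.mul (Nat.mul la m1) (Nat.mul m2 m3)) p q
        fun p' q' => fN (Nat.add l la) fun l' => k p' q' l').trans (a2.trans ?_)
    exact fN_eq (Nat.add l lam) fun l' => k p' q' l'

def qp (pw : List ℕ) : ℕ → ℕ :=
  List.rec (motive := fun _ => ℕ → ℕ) (fun _ => 0)
    (fun w _ ih u => fN u fun u => Nat.add (Nat.mul (Nat.mod u 64) w) (ih (Nat.div u 64))) pw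

theorem qp_aux (K : Kr) (v : ℕ → ℤ) (k : ℕ) : ∀ (j u : ℕ), j + k = K.n →
    ∃ x, Rep K v ((qp ((List.range' j k).map fun a => Nat.pow (Nat.mul 2 K.H) (K.e a)) u : ℤ) -
      32 * (((List.range' j k).map fun a => Nat.pow (Nat.mul 2 K.H) (K.e a)).sum : ℕ))
      (32 * k) x := by
  induction k with
  | zero => intro j u _; exact ⟨0, by simpa [qp] using Rep.zero K v 0⟩
  | succ k ih =>
    intro j u hk
    obtain ⟨x, hx⟩ := ih (j + 1) (u / 64) (by omega)
    have e1 : ((Nat.pow (Nat.mul 2 K.H) (K.e j) : ℕ) : ℤ) = K.x ^ K.e j :=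
      Nat.cast_pow (2 * K.H) (K.e j)
    have h1 := hx.lin (Rep.var K v j (by omega)) (((u % 64 : ℕ) : ℤ) - 32)
    rw [← e1] at h1
    have e2 : qp ((List.range' j (k + 1)).map fun a => Nat.pow (Nat.mul 2 K.H) (K.e a)) u =
        u % 64 * Nat.pow (Nat.mul 2 K.H) (K.e j) +
          qp ((List.range' (j + 1) k).map fun a => Nat.pow (Nat.mul 2 K.H) (K.e a)) (u / 64) :=
      fN_eq u fun u => Nat.add (Nat.mul (Nat.mod u 64) (Nat.pow (Nat.mul 2 K.H) (K.e j)))
        (qp ((List.range' (j + 1) k).map fun a => Nat.pow (Nat.mul 2 K.H) (K.e a)) (Nat.div u 64))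
    refine ⟨_, h1.cast ?_ (by omega) rfl⟩
    rw [e2, List.range'_succ, List.map_cons, List.sum_cons]
    push_cast
    ring

structure Par where
  K : Kr
  X : ℕ
  pw : List ℕ
  o32 : ℕ
  off : ℕ
  wg : List (ℕ × ℕ)
  ks : List ℕ
  kd : ℕ
  qs : ℕ
  l3 : PN
  tg : List PN
  br : ℕ → ℕ → List ℤ
  bl : ℕ → List ℤ
  okB : ℕ → Bool
  cr : ℕ → List (List ℤ)
  okC : ℕ → Bool
  done : List Ctx

def l1g (X H : ℕ) (wg : List (ℕ × ℕ)) : ℕ → ℕ :=
  List.rec (motive := fun _ => ℕ → ℕ) (fun _ => 0)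
    (fun e _ ih N => Prod.rec (motive := fun _ => ℕ) (fun w D => fN (Nat.div N D) fun M =>
      fN (Nat.mod M X) fun r =>
        Nat.add (Nat.mul w (Nat.add (Nat.sub r H) (Nat.sub H r))) (ih M)) e) wg

def wgOf (K : Kr) (ks : List ℕ) : List Tri → ℕ → List (ℕ × ℕ)
  | [], _ => []
  | t :: L, E => (wt ks t, Nat.pow (Nat.mul 2 K.H) (K.E t - E)) :: wgOf K ks L (K.E t)

def srt (K : Kr) : List Tri → ℕ → Bool
  | [], _ => true
  | t :: L, E => Nat.ble E (K.E t) && srt K L (K.E t)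

theorem l1g_eq (K : Kr) (ks : List ℕ) (N : ℕ) (L : List Tri) : ∀ E, srt K L E = true →
    l1g (2 * K.H) K.H (wgOf K ks L E) (N / (2 * K.H) ^ E) = (L.map (dg K ks N)).sum := by
  induction L with
  | nil => intro E _; rfl
  | cons t L ih =>
    intro E h
    rw [srt, Bool.and_eq_true, Nat.ble_eq] at h
    have e1 : N / (2 * K.H) ^ E / (2 * K.H) ^ (K.E t - E) = N / (2 * K.H) ^ K.E t := by
      rw [Nat.div_div_eq_div_mul, ← pow_add, Nat.add_sub_cancel' h.1]
    rw [List.map_cons, List.sum_cons, ← ih _ h.2, dg, ← e1]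
    exact (fN_eq (Nat.div (N / (2 * K.H) ^ E) (Nat.pow (Nat.mul 2 K.H) (K.E t - E))) fun M =>
      fN (Nat.mod M (2 * K.H)) fun r => Nat.add (Nat.mul (wt ks t)
        (Nat.add (Nat.sub r K.H) (Nat.sub K.H r)))
          (l1g (2 * K.H) K.H (wgOf K ks L (K.E t)) M)).trans (fN_eq _ _)

def Par.ok (P : Par) : Prop :=
  P.K.ok ∧ P.K.n ≤ 10 ∧ srt P.K P.K.L 0 = true ∧ P.X = 2 * P.K.H ∧ P.pw = pwOf P.K ∧
    P.o32 = 32 * (pwOf P.K).sum ∧ P.off = ∑ i ∈ range P.K.M, P.K.H * (2 * P.K.H) ^ i ∧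
    P.wg = wgOf P.K P.ks P.K.L 0

def fin (P : Par) (mu p q l : ℕ) : Bool :=
  Nat.blt (Nat.mul l 64000000) P.K.H && Nat.ble q (Nat.add p P.off) &&
    Nat.ble (l1g P.X P.K.H P.wg (Nat.sub (Nat.add p P.off) q)) (Nat.mul (Nat.pow P.kd 3) mu)

theorem fin_spec (P : Par) (hP : P.ok) (v : ℕ → ℤ) (l : ℤ) (hl : 0 ≤ l) (hk : 0 < P.kd)
    (hv : ∀ a < P.K.n, (P.kd : ℤ) * |v a| ≤ P.ks.getD a 0 * l) (mu p q m : ℕ) (x : ℤ)
    (h : Cub P.K v ((p : ℤ) - q) m x) (hf : fin P mu p q m = true) :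
    -(mu * (l * l * l)) ≤ x := by
  obtain ⟨k1, -, k3, k4, -, -, k7, k8⟩ := hP
  rw [fin, Bool.and_eq_true, Bool.and_eq_true, Nat.blt_eq, Nat.ble_eq, Nat.ble_eq] at hf
  obtain ⟨⟨f1, f2⟩, f3⟩ := hf
  have f2' : q ≤ p + P.off := f2
  have f4 := h.bound k1 f1 (p + P.off - q) (by
    rw [Nat.cast_sub f2', Nat.cast_add, k7, Nat.cast_sum]
    simp only [Kr.x, Nat.cast_mul, Nat.cast_pow]
    ring) P.ks P.kd l hl hv
  rw [← l1g_eq P.K P.ks _ _ 0 k3, pow_zero, Nat.div_one, ← k8, ← k4] at f4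
  have f5 : ((l1g P.X P.K.H P.wg (p + P.off - q) : ℕ) : ℤ) ≤ (P.kd : ℤ) ^ 3 * mu := by
    exact_mod_cast (show l1g P.X P.K.H P.wg (p + P.off - q) ≤ P.kd ^ 3 * mu from f3)
  have f6 := mul_le_mul_of_nonneg_right f5 (show 0 ≤ l * l * l by positivity)
  have f7 : (0 : ℤ) < (P.kd : ℤ) ^ 3 := by positivity
  rw [k4] at f6
  rw [k4] at f4
  refine le_of_mul_le_mul_left ?_ f7
  linarith

def sel (G : Ctx) (fuel : ℕ) : ℕ → (Ctx → Bool) → Bool :=
  Nat.rec (motive := fun _ => ℕ → (Ctx → Bool) → Bool) (fun _ k => k [])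
    (fun _ ih code k => fN code fun c => ifz c (k [])
      (En.rec (motive := fun _ => Bool) (fun st s u =>
        ih (Nat.div c 128) fun r => k (⟨st, s, u⟩ :: r))
        (nth e0 G (Nat.pred (Nat.mod c 128))))) fuel

theorem sel_spec (K : Kr) (G : Ctx) (v : ℕ → ℤ) (hG : Sat K v G) (fuel code : ℕ)
    (k : Ctx → Bool) : ∃ E, Sat K v E ∧ sel G fuel code k = k E := by
  induction fuel generalizing code k with
  | zero => exact ⟨[], fun _ h => by simp at h, rfl⟩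
  | succ m ih =>
    have e : sel G (m + 1) code k = ifz code (k [])
        (sel G m (Nat.div code 128) fun r => k (nth e0 G (Nat.pred (Nat.mod code 128)) :: r)) :=
      fN_eq code (fun c => ifz c (k [])
        (sel G m (Nat.div c 128) fun r => k (nth e0 G (Nat.pred (Nat.mod c 128)) :: r)))
    rw [e]
    rcases ifz_or code (k []) (sel G m (Nat.div code 128)
      fun r => k (nth e0 G (Nat.pred (Nat.mod code 128)) :: r)) with h | h
    · exact ⟨[], fun _ h => by simp at h, h⟩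
    · obtain ⟨E, h4, h5⟩ := ih (Nat.div code 128)
        fun r => k (nth e0 G (Nat.pred (Nat.mod code 128)) :: r)
      exact ⟨_, Sat.cons (hG.nth _) h4, h.trans h5⟩

def termP (E : Ctx) (w p q l : ℕ) (k : ℕ → ℕ → ℕ → Bool) : Bool :=
  sub3 (Nat.div w 524288) (nth e0 E (Nat.mod (Nat.div w 2) 64))
    (nth e0 E (Nat.mod (Nat.div w 128) 64)) (nth e0 E (Nat.mod (Nat.div w 8192) 64)) p q l k

def termQ (P : Par) (E : Ctx) (w p q l : ℕ) (k : ℕ → ℕ → ℕ → Bool) : Bool :=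
  mk ⟨qp P.pw (Nat.div w 128), P.o32, 0⟩ fun s u =>
    sub3 (Nat.div w P.qs) ⟨false, s, u⟩ ⟨false, s, u⟩ (nth e0 E (Nat.mod (Nat.div w 2) 64)) p q l k

def loopH (P : Par) (E : Ctx) (mp mq mu : ℕ) (fuel : ℕ) : ℕ → ℕ → ℕ → ℕ → Bool :=
  Nat.rec (motive := fun _ => ℕ → ℕ → ℕ → ℕ → Bool) (fun _ _ _ _ => false)
    (fun _ ih code p q l => fN code fun c => ifz c (fin P mu p q l)
      (ifz (Nat.mod c 2) (fN (Nat.mod c mp) fun w => termP E w p q l (ih (Nat.div c mp)))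
        (fN (Nat.mod c mq) fun w => termQ P E w p q l (ih (Nat.div c mq))))) fuel

theorem loopH_spec (P : Par) (hP : P.ok) (v : ℕ → ℤ) (E : Ctx) (hE : Sat P.K v E)
    (mp mq mu fuel code p q l : ℕ) (x : ℤ) (h : Cub P.K v ((p : ℤ) - q) l x)
    (hc : loopH P E mp mq mu fuel code p q l = true) :
    ∃ (p' q' l' : ℕ) (x' : ℤ), x' ≤ x ∧ Cub P.K v ((p' : ℤ) - q') l' x' ∧
      fin P mu p' q' l' = true := by
  induction fuel generalizing code p q l x with
  | zero => cases hc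
  | succ m ih =>
    have e : loopH P E mp mq mu (m + 1) code p q l = ifz code (fin P mu p q l)
      (ifz (Nat.mod code 2)
        (fN (Nat.mod code mp) fun w => termP E w p q l (loopH P E mp mq mu m (Nat.div code mp)))
        (fN (Nat.mod code mq) fun w =>
          termQ P E w p q l (loopH P E mp mq mu m (Nat.div code mq)))) :=
      fN_eq code (fun c => ifz c (fin P mu p q l)
      (ifz (Nat.mod c 2)
        (fN (Nat.mod c mp) fun w => termP E w p q l (loopH P E mp mq mu m (Nat.div c mp)))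
        (fN (Nat.mod c mq) fun w => termQ P E w p q l (loopH P E mp mq mu m (Nat.div c mq)))))
    rw [e, fN_eq, fN_eq] at hc
    rcases ifz_or code (fin P mu p q l) _ with h1 | h1
    · rw [h1] at hc; exact ⟨p, q, l, x, le_rfl, h, hc⟩
    rw [h1] at hc
    rcases ifz_or (Nat.mod code 2)
      (termP E (Nat.mod code mp) p q l (loopH P E mp mq mu m (Nat.div code mp))) _ with h2 | h2
    · rw [h2, termP] at hc
      obtain ⟨x1, a1, b1, -⟩ := hE.nth (Nat.mod (Nat.div (Nat.mod code mp) 2) 64)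
      obtain ⟨x2, a2, b2, -⟩ := hE.nth (Nat.mod (Nat.div (Nat.mod code mp) 128) 64)
      obtain ⟨x3, a3, b3, -⟩ := hE.nth (Nat.mod (Nat.div (Nat.mod code mp) 8192) 64)
      obtain ⟨p1, q1, l1, i1, i2⟩ := sub3_spec P.K v (Nat.div (Nat.mod code mp) 524288) _ _ _ _ _ _
        a1 a2 a3 p q l x h (loopH P E mp mq mu m (Nat.div code mp))
      rw [i2] at hc
      obtain ⟨p', q', l', x', j1, j2, j3⟩ := ih _ _ _ _ _ i1 hc
      exact ⟨p', q', l', x', j1.trans (sub_le_self _ (by positivity)), j2, j3⟩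
    · rw [h2, termQ] at hc
      obtain ⟨-, k2⟩ := mk_spec _ _ hc
      obtain ⟨y, k3⟩ := qp_aux P.K v P.K.n 0 (Nat.div (Nat.mod code mq) 128) (by simp)
      have k4 : Rep P.K v (sv (enOf false
          ⟨qp P.pw (Nat.div (Nat.mod code mq) 128), P.o32, 0⟩)) 400 y := by
        refine k3.cast ?_ (by have := hP.2.1; omega) rfl
        rw [sv_enOf, hP.2.2.2.2.2.1, hP.2.2.2.2.1, pwOf, List.range_eq_range']
        push_cast
        rfl
      obtain ⟨x3, a3, b3, -⟩ := hE.nth (Nat.mod (Nat.div (Nat.mod code mq) 2) 64)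
      obtain ⟨p1, q1, l1, i1, i2⟩ := sub3_spec P.K v (Nat.div (Nat.mod code mq) P.qs) _ _ _ _ _ _
        k4 k4 a3 p q l x h (loopH P E mp mq mu m (Nat.div code mq))
      obtain ⟨p', q', l', x', j1, j2, j3⟩ := ih _ _ _ _ _ i1 (i2.symm.trans k2)
      exact ⟨p', q', l', x', j1.trans (sub_le_self _
        (mul_nonneg (Int.natCast_nonneg _) (mul_nonneg (mul_self_nonneg _) b3))), j2, j3⟩

def pn0 : PN := ⟨0, 0, 0⟩

def leafH (P : Par) (G : Ctx) (t D mu lw sc code : ℕ) : Bool :=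
  Nat.blt 0 D && Nat.blt t P.tg.length && sel G 64 sc fun E =>
    fN (Nat.mul 524288 (Nat.pow 2 lw)) fun mp => fN (Nat.mul P.qs (Nat.pow 2 lw)) fun mq =>
      loopH P E mp mq mu 600 code
        (Nat.add (Nat.mul D (nth pn0 P.tg t).p) (Nat.mul mu P.l3.q))
        (Nat.add (Nat.mul D (nth pn0 P.tg t).q) (Nat.mul mu P.l3.p))
        (Nat.add (Nat.mul D (nth pn0 P.tg t).m) (Nat.mul mu P.l3.m))

def CubN (K : Kr) (v : ℕ → ℤ) (a : PN) (x : ℤ) : Prop := Cub K v ((a.p : ℤ) - a.q) a.m x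

theorem leafH_spec (P : Par) (hP : P.ok) (v : ℕ → ℤ) (l : ℤ) (hl : 0 ≤ l) (hk : 0 < P.kd)
    (hv : ∀ a < P.K.n, (P.kd : ℤ) * |v a| ≤ P.ks.getD a 0 * l) (h3 : CubN P.K v P.l3 (l * l * l))
    (G : Ctx) (hG : Sat P.K v G) (t D mu lw sc code : ℕ)
    (h : leafH P G t D mu lw sc code = true) :
    t < P.tg.length ∧ ∀ x, CubN P.K v (nth pn0 P.tg t) x → 0 ≤ x := by
  rw [leafH, Bool.and_eq_true, Bool.and_eq_true, Nat.blt_eq, Nat.blt_eq] at h
  obtain ⟨⟨h1, h2⟩, h4⟩ := h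
  refine ⟨h2, fun x hx => ?_⟩
  obtain ⟨E, a1, a2⟩ := sel_spec P.K G v hG 64 sc _
  rw [a2, fN_eq, fN_eq] at h4
  have c1 := ((Cub.zero P.K v).lin hx D).lin h3 (-mu)
  obtain ⟨p, q, m, y, d1, d2, d3⟩ := loopH_spec P hP v E a1 _ _ _ _ _ _ _ _ _
    (c1.cast (by simp only [Nat.add_eq, Nat.mul_eq]; push_cast; ring) (by simp) rfl) h4
  have f := fin_spec P hP v l hl hk hv mu p q m y d2 d3
  have hD : (0 : ℤ) < D := by exact_mod_cast h1
  refine nonneg_of_mul_nonneg_right ?_ hD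
  linarith

def loopF (H : ℕ) (G : Ctx) (fuel : ℕ) : ℕ → ℕ → ℕ → ℕ → Bool → Bool :=
  Nat.rec (motive := fun _ => ℕ → ℕ → ℕ → ℕ → Bool → Bool) (fun _ _ _ _ _ => false)
    (fun _ ih code p q m fl => fN code fun c => ifz c (Nat.beq p q && Nat.blt m H && fl)
      (fN (Nat.div (Nat.mod c 549755813888) 128) fun cf =>
        En.rec (motive := fun _ => Bool) (fun st s u => subT s (Nat.mul cf u) p q fun p' q' =>
          ih (Nat.div c 549755813888) p' q' (Nat.add m (Nat.mul cf 400))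
            (fl || (st && Nat.blt 0 cf))) (nth e0 G (Nat.mod c 128)))) fuel

theorem loopF_spec (K : Kr) (hK : K.ok) (G : Ctx) (v : ℕ → ℤ) (hG : Sat K v G)
    (fuel code p q m : ℕ) (fl : Bool) (x : ℤ) (hx : Rep K v ((p : ℤ) - q) m x)
    (h : loopF K.H G fuel code p q m fl = true) : 0 ≤ x ∧ (fl = false → 0 < x) := by
  induction fuel generalizing code p q m fl x with
  | zero => cases h
  | succ n ih =>
    have e : loopF K.H G (n + 1) code p q m fl = ifz code (Nat.beq p q && Nat.blt m K.H && fl)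
      (fN (Nat.div (Nat.mod code 549755813888) 128) fun cf =>
        subT (nth e0 G (Nat.mod code 128)).sg (Nat.mul cf (nth e0 G (Nat.mod code 128)).mag) p q
          fun p' q' => loopF K.H G n (Nat.div code 549755813888) p' q' (Nat.add m (Nat.mul cf 400))
            (fl || ((nth e0 G (Nat.mod code 128)).st && Nat.blt 0 cf))) :=
      fN_eq code (fun c => ifz c (Nat.beq p q && Nat.blt m K.H && fl)
      (fN (Nat.div (Nat.mod c 549755813888) 128) fun cf =>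
        subT (nth e0 G (Nat.mod c 128)).sg (Nat.mul cf (nth e0 G (Nat.mod c 128)).mag) p q
          fun p' q' => loopF K.H G n (Nat.div c 549755813888) p' q' (Nat.add m (Nat.mul cf 400))
            (fl || ((nth e0 G (Nat.mod c 128)).st && Nat.blt 0 cf))))
    rw [e, fN_eq] at h
    rcases ifz_or code (Nat.beq p q && Nat.blt m K.H && fl) _ with h1 | h1
    · rw [h1, Bool.and_eq_true, Bool.and_eq_true, Nat.blt_eq, Nat.beq_eq] at h
      have : x = 0 := (hx.cast (by rw [h.1.1, sub_self]) le_rfl rfl).eq_zero hK h.1.2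
      exact ⟨this.ge, fun hf => by rw [hf] at h; cases h.2⟩
    rw [h1] at h
    obtain ⟨y, b0, b1, b2⟩ := hG.nth (Nat.mod code 128)
    generalize Nat.div (Nat.mod code 549755813888) 128 = cf at *
    generalize nth e0 G (Nat.mod code 128) = en at *
    obtain ⟨p', q', a1, a2⟩ := subT_spec en.sg (Nat.mul cf en.mag) p q
      fun p' q' => loopF K.H G n (Nat.div code 549755813888) p' q' (Nat.add m (Nat.mul cf 400))
        (fl || (en.st && Nat.blt 0 cf))
    obtain ⟨c1, c2⟩ := ih _ p' q' _ _ _ ((hx.lin b0 (-cf)).cast (by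
      rw [a1, sv]; split <;> simp only [Nat.mul_eq] <;> push_cast <;> ring) (by simp) rfl)
      (a2.symm.trans h)
    have c3 : 0 ≤ (cf : ℤ) * y := by positivity
    refine ⟨by linarith, fun hf => ?_⟩
    by_cases h2 : (en.st && Nat.blt 0 cf) = true
    · rw [Bool.and_eq_true, Nat.blt_eq] at h2
      have : 0 < (cf : ℤ) * y := mul_pos (Int.natCast_pos.2 h2.2) (b2 h2.1)
      linarith
    · have := c2 (by rw [hf, Bool.false_or]; exact Bool.eq_false_iff.2 h2)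
      linarith

def impl (P : Par) (G : Ctx) (g : List ℤ) (c : ℕ) : Bool :=
  fN (Nat.mod c 4294967296) fun D => Nat.blt 0 D &&
    loopF P.K.H G 40 (Nat.div c 4294967296) (Nat.mul D (pk g P.pw 0 0 0).p)
      (Nat.mul D (pk g P.pw 0 0 0).q) (Nat.mul D (pk g P.pw 0 0 0).m) true

theorem impl_spec (P : Par) (hP : P.ok) (G : Ctx) (v : ℕ → ℤ) (hG : Sat P.K v G) (g : List ℤ)
    (c : ℕ) (h : impl P G g c = true) : 0 ≤ dot P.K.n g v := by
  rw [impl, fN_eq, Bool.and_eq_true, Nat.blt_eq, hP.2.2.2.2.1] at h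
  have := (loopF_spec P.K hP.1 G v hG _ _ _ _ _ _ _
    (((Rep.zero P.K v 0).lin (pk_rep P.K v g) (Nat.mod c 4294967296 : ℕ)).cast
      (by simp only [Nat.mul_eq]; push_cast; ring) (by simp) rfl) h.2).1
  have hD : (0 : ℤ) < (Nat.mod c 4294967296 : ℕ) := Int.natCast_pos.2 h.1
  refine nonneg_of_mul_nonneg_right ?_ hD
  linarith

def implAll (P : Par) (G : Ctx) (gs : List (List ℤ)) : List ℕ → Bool :=
  List.rec (motive := fun _ => List ℕ → Bool) (fun _ => true)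
    (fun g _ ih cs => unN cs fun c r => impl P G g c && ih r) gs

theorem implAll_spec (P : Par) (hP : P.ok) (G : Ctx) (v : ℕ → ℤ) (hG : Sat P.K v G)
    (gs : List (List ℤ)) (cs : List ℕ) (h : implAll P G gs cs = true) :
    ∀ g ∈ gs, 0 ≤ dot P.K.n g v := by
  induction gs generalizing cs with
  | nil => simp
  | cons g t ih =>
    have e : implAll P G (g :: t) cs = (impl P G g (cs.headD 0) && implAll P G t cs.tail) :=
      unN_eq cs fun c r => impl P G g c && implAll P G t r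
    rw [e, Bool.and_eq_true] at h
    exact List.forall_mem_cons.2 ⟨impl_spec P hP G v hG _ _ h.1, ih _ h.2⟩

inductive Tr where
  | F (c : ℕ)
  | H (t D mu lw sc c : ℕ)
  | C (d : ℕ) (cs : List ℕ)
  | R
  | S (g : List ℤ) (l r : Tr)
  | B (d : ℕ) (t0 t1 t2 t3 t4 t5 t6 t7 : Tr)

/-- case split on the sign of the form `f` minus the packed form `b` -/
def step (pw : List ℕ) (b : PN) (f : List ℤ) (ck k : Ctx → Bool) (G : Ctx) : Bool :=
  mk (pk f pw b.q b.p b.m) fun s u => ck (⟨false, s, u⟩ :: G) &&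
    Bool.rec (motive := fun _ => Bool) (k (⟨true, true, u⟩ :: G)) (k (⟨true, false, u⟩ :: G)) s

theorem step_spec (K : Kr) (v : ℕ → ℤ) (Q R : Prop) (b : PN) (y : ℤ)
    (hb : Rep K v ((b.p : ℤ) - b.q) b.m y) (f : List ℤ) (ck k : Ctx → Bool)
    (h1 : ∀ G, ck G = true → Sat K v G → Q)
    (h2 : ∀ G, k G = true → Sat K v G → Q ∨ R) (G : Ctx)
    (h : step (pwOf K) b f ck k G = true) (hG : Sat K v G) :
    Q ∨ (dot K.n f v < y ∧ R) := by
  obtain ⟨a1, a2⟩ := mk_spec _ _ h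
  have a3 : Rep K v (((pk f (pwOf K) b.q b.p b.m).p : ℤ) - (pk f (pwOf K) b.q b.p b.m).q)
      (pk f (pwOf K) b.q b.p b.m).m (-y + dot K.n f v) := by
    have := pk_aux K v f 0 b.q b.p b.m (-y) K.n (by simp) (hb.neg.cast (by ring) le_rfl rfl)
    simpa [pwOf, List.range_eq_range', dot] using this
  have a4 := a3.en a1 false
  generalize enOf false (pk f (pwOf K) b.q b.p b.m) = en at a2 a4
  rw [Bool.and_eq_true] at a2
  rcases le_or_gt y (dot K.n f v) with h3 | h3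
  · exact Or.inl (h1 _ a2.1 (Sat.cons ⟨_, a4, by omega, fun h => by cases h⟩ hG))
  · obtain ⟨st, s, u⟩ := en
    cases s
    · exact (h2 _ a2.2 (Sat.cons ⟨_, a4.neg.cast (by simp [sv]) le_rfl rfl, by omega,
        fun _ => by omega⟩ hG)).imp id fun h => ⟨h3, h⟩
    · exact (h2 _ a2.2 (Sat.cons ⟨_, a4.neg.cast (by simp [sv]) le_rfl rfl, by omega,
        fun _ => by omega⟩ hG)).imp id fun h => ⟨h3, h⟩

def fP (a : PN) (k : PN → Bool) : Bool :=
  PN.rec (motive := fun _ => Bool)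
    (fun p q m => fN p fun p => fN q fun q => fN m fun m => k ⟨p, q, m⟩) a

theorem fP_eq (a : PN) (k : PN → Bool) : fP a k = k a := by
  obtain ⟨p, q, m⟩ := a
  show fN p (fun p => fN q fun q => fN m fun m => k ⟨p, q, m⟩) = _
  rw [fN_eq, fN_eq, fN_eq]

def check (P : Par) (t : Tr) : Ctx → Bool :=
  Tr.rec (motive := fun _ => Ctx → Bool)
    (fun c G => loopF P.K.H G 40 c 0 0 0 false)
    (fun t D mu lw sc c G => leafH P G t D mu lw sc c)
    (fun d cs G => P.okC d && implAll P G (P.cr d) cs)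
    (fun G => P.done.elem G)
    (fun g _ _ l r => step P.pw pn0 g l r)
    (fun d _ _ _ _ _ _ _ _ c0 c1 c2 c3 c4 c5 c6 c7 G => P.okB d &&
      fP (pk (P.bl d) P.pw 0 0 0) fun b =>
      step P.pw b (P.br d 0) c0 (step P.pw b (P.br d 1) c1 (step P.pw b (P.br d 2) c2
        (step P.pw b (P.br d 3) c3 (step P.pw b (P.br d 4) c4 (step P.pw b (P.br d 5) c5
          (step P.pw b (P.br d 6) c6 (step P.pw b (P.br d 7) c7 fun _ => true))))))) G) t

theorem check_sound (P : Par) (hP : P.ok) (v : ℕ → ℤ) (l : ℤ) (hl : 0 ≤ l) (hk : 0 < P.kd)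
    (hv : ∀ a < P.K.n, (P.kd : ℤ) * |v a| ≤ P.ks.getD a 0 * l) (h3 : CubN P.K v P.l3 (l * l * l))
    (Q : Prop) (hT : ∀ t < P.tg.length, ∃ x, CubN P.K v (nth pn0 P.tg t) x ∧ (0 ≤ x → Q))
    (hB : ∀ d, P.okB d = true → ∃ k < 8, dot P.K.n (P.bl d) v ≤ dot P.K.n (P.br d k) v)
    (hC : ∀ d, P.okC d = true → (∀ g ∈ P.cr d, 0 ≤ dot P.K.n g v) → Q)
    (hR : ∀ G ∈ P.done, Sat P.K v G → Q) (t : Tr) :
    ∀ G, check P t G = true → Sat P.K v G → Q := by
  have hw := hP.2.2.2.2.1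
  induction t with
  | F c =>
    intro G h hG
    exact absurd ((loopF_spec P.K hP.1 G v hG 40 c 0 0 0 false 0
      (by simpa using Rep.zero P.K v 0) h).2 rfl) (lt_irrefl _)
  | H t D mu lw sc c =>
    intro G h hG
    obtain ⟨a, b⟩ := leafH_spec P hP v l hl hk hv h3 G hG t D mu lw sc c h
    obtain ⟨x, c1, c2⟩ := hT t a
    exact c2 (b x c1)
  | C d cs =>
    intro G h hG
    have h' : (P.okC d && implAll P G (P.cr d) cs) = true := h
    rw [Bool.and_eq_true] at h'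
    exact hC d h'.1 (implAll_spec P hP G v hG _ _ h'.2)
  | R => exact fun G h hG => hR G (List.mem_of_elem_eq_true h) hG
  | S g l r il ir =>
    intro G h hG
    have h' : step P.pw pn0 g (check P l) (check P r) G = true := h
    rw [hw] at h'
    rcases step_spec P.K v Q False pn0 0 (by simpa [pn0] using Rep.zero P.K v 0) g _ _ il
      (fun G a b => Or.inl (ir G a b)) G h' hG with a | a
    · exact a
    · exact a.2.elim
  | B d t0 t1 t2 t3 t4 t5 t6 t7 i0 i1 i2 i3 i4 i5 i6 i7 =>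
    intro G h hG
    have h' : (P.okB d && fP (pk (P.bl d) P.pw 0 0 0) fun b =>
      step P.pw b (P.br d 0) (check P t0) (step P.pw b (P.br d 1) (check P t1)
      (step P.pw b (P.br d 2) (check P t2) (step P.pw b (P.br d 3) (check P t3)
      (step P.pw b (P.br d 4) (check P t4) (step P.pw b (P.br d 5) (check P t5)
      (step P.pw b (P.br d 6) (check P t6) (step P.pw b (P.br d 7) (check P t7)
          fun _ => true))))))) G) = true := h
    rw [Bool.and_eq_true, fP_eq, hw] at h'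
    have hb := pk_rep P.K v (P.bl d)
    have key := step_spec P.K v Q _ _ _ hb _ _ _ i0 (step_spec P.K v Q _ _ _ hb _ _ _ i1
      (step_spec P.K v Q _ _ _ hb _ _ _ i2 (step_spec P.K v Q _ _ _ hb _ _ _ i3
      (step_spec P.K v Q _ _ _ hb _ _ _ i4 (step_spec P.K v Q _ _ _ hb _ _ _ i5
      (step_spec P.K v Q _ _ _ hb _ _ _ i6 (step_spec P.K v Q True _ _ hb _ _ (fun _ => true) i7
            fun _ _ _ => Or.inr trivial))))))) G h'.2 hG
    rcases key with a | ⟨a0, a1, a2, a3, a4, a5, a6, a7, -⟩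
    · exact a
    · obtain ⟨k, k1, k2⟩ := hB d h'.1
      interval_cases k <;> omega

def tval (n : ℕ) (v : ℕ → ℤ) : List Term → ℤ
  | [] => 0
  | t :: ts => t.1 * (dot n t.2.1 v * dot n t.2.2.1 v * dot n t.2.2.2 v) + tval n v ts

def mkT (pw : List ℕ) (ts : List Term) : (ℕ → ℕ → ℕ → Bool) → Bool :=
  List.rec (motive := fun _ => (ℕ → ℕ → ℕ → Bool) → Bool) (fun k => k 0 0 0)
    (fun t _ ih k => mk (pk t.2.1 pw 0 0 0) fun s1 u1 => mk (pk t.2.2.1 pw 0 0 0) fun s2 u2 =>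
      mk (pk t.2.2.2 pw 0 0 0) fun s3 u3 => ih fun p q l =>
        sub3 t.1.natAbs ⟨false, xr (decide (0 ≤ t.1)) s1, u1⟩ ⟨false, s2, u2⟩ ⟨false, s3, u3⟩
          p q l k) ts

theorem mkT_spec (K : Kr) (v : ℕ → ℤ) (ts : List Term) (k : ℕ → ℕ → ℕ → Bool)
    (h : mkT (pwOf K) ts k = true) :
    ∃ p q l, CubN K v ⟨p, q, l⟩ (tval K.n v ts) ∧ k p q l = true := by
  induction ts generalizing k with
  | nil => exact ⟨0, 0, 0, by simpa [CubN, tval] using Cub.zero K v, h⟩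
  | cons t ts ih =>
    obtain ⟨a1, b1⟩ := mk_spec (pk t.2.1 (pwOf K) 0 0 0) (fun s1 u1 =>
      mk (pk t.2.2.1 (pwOf K) 0 0 0) fun s2 u2 =>
      mk (pk t.2.2.2 (pwOf K) 0 0 0) fun s3 u3 => mkT (pwOf K) ts fun p q l =>
        sub3 t.1.natAbs ⟨false, xr (decide (0 ≤ t.1)) s1, u1⟩ ⟨false, s2, u2⟩ ⟨false, s3, u3⟩
          p q l k) h
    obtain ⟨a2, b2⟩ := mk_spec _ _ b1
    obtain ⟨a3, b3⟩ := mk_spec _ _ b2
    obtain ⟨p, q, l, c1, c2⟩ := ih _ b3
    have r1 := (pk_rep K v t.2.1).en a1 false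
    have r2 := (pk_rep K v t.2.2.1).en a2 false
    have r3 := (pk_rep K v t.2.2.2).en a3 false
    generalize enOf false (pk t.2.1 (pwOf K) 0 0 0) = e1 at r1 c2
    by_cases hc : 0 ≤ t.1
    · have r4 : Rep K v (sv ⟨false, xr (decide (0 ≤ t.1)) e1.sg, e1.mag⟩) 400
          (-dot K.n t.2.1 v) := r1.neg.cast (by
        obtain ⟨a, b, c⟩ := e1
        cases b <;> simp [sv, xr, hc]) le_rfl rfl
      obtain ⟨p', q', l', d1, d2⟩ := sub3_spec K v t.1.natAbs _ _ _ _ _ _ r4 r2 r3 p q l _ c1 k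
      refine ⟨p', q', l', d1.cast rfl rfl ?_, d2.symm.trans c2⟩
      rw [tval, Int.natAbs_of_nonneg hc]; ring
    · have r4 : Rep K v (sv ⟨false, xr (decide (0 ≤ t.1)) e1.sg, e1.mag⟩) 400
          (dot K.n t.2.1 v) := r1.cast (by
        obtain ⟨a, b, c⟩ := e1
        cases b <;> simp [sv, xr, hc]) le_rfl rfl
      obtain ⟨p', q', l', d1, d2⟩ := sub3_spec K v t.1.natAbs _ _ _ _ _ _ r4 r2 r3 p q l _ c1 k
      refine ⟨p', q', l', d1.cast rfl rfl ?_, d2.symm.trans c2⟩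
      rw [tval, Int.ofNat_natAbs_of_nonpos (by omega)]; ring

def fW (l : List (ℕ × ℕ)) : (List (ℕ × ℕ) → Bool) → Bool :=
  List.rec (motive := fun _ => (List (ℕ × ℕ) → Bool) → Bool) (fun k => k [])
    (fun x _ ih k => fN x.1 fun a => fN x.2 fun b => ih fun r => k ((a, b) :: r)) l

theorem fW_eq (l : List (ℕ × ℕ)) (k : List (ℕ × ℕ) → Bool) : fW l k = k l := by
  induction l generalizing k with
  | nil => rfl
  | cons x t ih =>
    show fN x.1 (fun a => fN x.2 fun b => fW t fun r => k ((a, b) :: r)) = _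
    rw [fN_eq, fN_eq, ih]

structure Inp where
  K : Kr
  ks : List ℕ
  kd : ℕ
  qs : ℕ
  ell : List ℤ
  t0 : List Term
  t1 : List Term
  br : ℕ → ℕ → List ℤ
  bl : ℕ → List ℤ
  okB : ℕ → Bool
  cr : ℕ → List (List ℤ)
  okC : ℕ → Bool

def run (I : Inp) (D : List CtxL) (t : Tr) (G : CtxL) : Bool :=
  fN (Nat.mul 2 I.K.H) fun X => fLN (pwOf I.K) fun pw => fN (32 * pw.sum) fun o32 =>
    fN (I.K.H * ((X ^ I.K.M - 1) / (X - 1))) fun off => fW (wgOf I.K I.ks I.K.L 0) fun wg =>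
      fN I.qs fun qs => mkT pw [(1, I.ell, I.ell, I.ell)] fun p q l =>
        mkT pw I.t0 fun p0 q0 l0 => mkT pw I.t1 fun p1 q1 l1 => mkD pw D fun dn =>
          mkG pw G fun C => check ⟨I.K, X, pw, o32, off, wg, I.ks, I.kd, qs, ⟨p, q, l⟩,
            [⟨p0, q0, l0⟩, ⟨p1, q1, l1⟩], I.br, I.bl, I.okB, I.cr, I.okC, dn⟩ t C

/-- the hypotheses under which a verified tree proves `Q` -/
structure Hyp (I : Inp) (v : ℕ → ℤ) (Q : Prop) : Prop where
  hK : I.K.ok
  hn : I.K.n ≤ 10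
  hs : srt I.K I.K.L 0 = true
  hl : 0 ≤ dot I.K.n I.ell v
  hk : 0 < I.kd
  hv : ∀ a < I.K.n, (I.kd : ℤ) * |v a| ≤ I.ks.getD a 0 * dot I.K.n I.ell v
  h0 : 0 ≤ tval I.K.n v I.t0 → Q
  h1 : 0 ≤ tval I.K.n v I.t1 → Q
  hB : ∀ d, I.okB d = true → ∃ k < 8, dot I.K.n (I.bl d) v ≤ dot I.K.n (I.br d k) v
  hC : ∀ d, I.okC d = true → (∀ g ∈ I.cr d, 0 ≤ dot I.K.n g v) → Q

theorem run_aux (I : Inp) (v : ℕ → ℤ) (Q : Prop) (h : Hyp I v Q) (D : List CtxL)
    (hD : ∀ G ∈ D, Sat I.K v (ctxOf (pwOf I.K) G) → Q) (t : Tr) (G : CtxL)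
    (hr : run I D t G = true) :
    (∀ e ∈ G, (pk e.2 (pwOf I.K) 0 0 0).m ≤ 400) ∧ (Sat I.K v (ctxOf (pwOf I.K) G) → Q) := by
  rw [run, fN_eq, fLN_eq, fN_eq, fN_eq, fW_eq, fN_eq] at hr
  obtain ⟨p, q, l, a1, a2⟩ := mkT_spec I.K v _ _ hr
  obtain ⟨p0, q0, l0, b1, b2⟩ := mkT_spec I.K v _ _ a2
  obtain ⟨p1, q1, l1, c1, c2⟩ := mkT_spec I.K v _ _ b2
  obtain ⟨d1, d2⟩ := mkG_spec _ _ _ (mkD_spec _ _ _ c2)
  refine ⟨d1, check_sound _ ⟨h.hK, h.hn, h.hs, rfl, rfl, rfl, ?_, rfl⟩ v _ h.hl h.hk h.hv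
    (by simpa [tval] using a1) Q ?_ h.hB h.hC ?_ t _ d2⟩
  · show I.K.H * (((2 * I.K.H) ^ I.K.M - 1) / (2 * I.K.H - 1)) = _
    rw [← mul_sum, Nat.geomSum_eq (show 2 ≤ 2 * I.K.H by have := h.hK.1; omega)]
  · intro t ht
    have : t < 2 := ht
    interval_cases t
    · exact ⟨_, b1, h.h0⟩
    · exact ⟨_, c1, h.h1⟩
  · intro C hC
    obtain ⟨G', e1, rfl⟩ := List.mem_map.1 hC
    exact hD G' e1

theorem run_chunk (I : Inp) (v : ℕ → ℤ) (Q : Prop) (h : Hyp I v Q) {t : Tr} {G : CtxL}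
    (hr : run I [] t G = true) : Sat I.K v (ctxOf (pwOf I.K) G) → Q :=
  (run_aux I v Q h [] (fun _ h => by simp at h) t G hr).2

theorem run_top (I : Inp) (v : ℕ → ℤ) (Q : Prop) (h : Hyp I v Q) {D : List CtxL}
    (hD : ∀ G ∈ D, Sat I.K v (ctxOf (pwOf I.K) G) → Q) {t : Tr} {G : CtxL}
    (hr : run I D t G = true) (hG : SatL I.K.n v G) : Q :=
  (run_aux I v Q h D hD t G hr).2 (sat_ctxOf I.K v G hG (run_aux I v Q h D hD t G hr).1)

end

end Pool.Agent.MP_824cb5_co.T3
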