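import Pool.Agent.MP_824cb5_co.T3.Chk

namespace Pool.Agent.MP_824cb5_co.T3

noncomputable section

/-- the form `u i` of the vector with coordinates `x, y, z` in the basis -/
def uf (i : ℕ) (x y z : ℤ) : List ℤ :=
  match i with
  | 0 => [x, 0, 0, y, 0, 0, z, 0, 0]
  | 1 => [0, x, 0, 0, y, 0, 0, z, 0]
  | 2 => [0, 0, x, 0, 0, y, 0, 0, z]
  | _ => [-x, -x, -x, -y, -y, -y, -z, -z, -z]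

def zc (d m : ℕ) : ℤ := Int.subNatNat (d / m % 16) 8

def od (d k : ℕ) : ℕ := d / 2 ^ (14 + 3 * k) % 8

def gbr (d k : ℕ) : List ℤ :=
  if od d k % 2 = 0 then uf (od d k / 2) (zc d 1) (zc d 16) (zc d 256)
  else uf (od d k / 2) (-zc d 1) (-zc d 16) (-zc d 256)

def gbl (i2 i3 d : ℕ) : List ℤ :=
  match d / 4096 % 4 with
  | 0 => uf 0 1 0 0
  | 1 => uf i2 0 1 0
  | _ => uf i3 0 0 1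

def gz (d : ℕ) : ℤ :=
  match d / 4096 % 4 with
  | 0 => zc d 1
  | 1 => zc d 16
  | _ => zc d 256

def gokB (d : ℕ) : Bool :=
  (gz d).natAbs == 1 && (List.range 8).all fun o => (List.range 8).any fun k => od d k == o

def uc (d k : ℕ) : ℤ := Int.subNatNat (d / 8 ^ k % 8) 3

def pc (d k : ℕ) : ℕ := d / 2 ^ 27 / 4 ^ k % 4

def lc (a : ℤ) (f : List ℤ) (b : ℤ) (g : List ℤ) (c : ℤ) (h : List ℤ) : List ℤ :=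
  accS a b c (List.replicate 9 0) f g h

def crs (p0 p1 p2 p3 : ℕ) (a0 a1 a2 b0 b1 b2 c0 c1 c2 : ℤ) : List (List ℤ) :=
  let s := uf 0 1 0 0
  let x1 := uf p0 a0 a1 a2
  let x2 := uf p1 b0 b1 b2
  let x3 := uf p2 c0 c1 c2
  let y1 := uf p0 (a0 + c0) (a1 + c1) (a2 + c2)
  let y2 := uf p1 (a0 + b0) (a1 + b1) (a2 + b2)
  let y3 := uf p2 (b0 + c0) (b1 + c1) (b2 + c2)
  let w := uf p3 (a0 + b0 + c0) (a1 + b1 + c1) (a2 + b2 + c2)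
  [lc 1 x1 (-1) s 0 [], lc 1 x2 (-1) s 0 [], lc 1 x3 (-1) s 0 [], lc 1 y1 (-1) s 0 [],
    lc 1 y2 (-1) s 0 [], lc 1 y3 (-1) s 0 [], lc (-1) w (-1) s 0 [],
    uf p0 (-b0) (-b1) (-b2), uf p1 (-c0) (-c1) (-c2), uf p2 (-a0) (-a1) (-a2),
    lc (-4) (lc 1 x1 1 x2 1 x3) (-2) (lc 1 y1 1 y2 1 y3) 1 (lc 23 s 4 w 0 [])]

def gcr (d : ℕ) : List (List ℤ) :=
  crs (pc d 0) (pc d 1) (pc d 2) (pc d 3) (uc d 0) (uc d 1) (uc d 2) (uc d 3) (uc d 4) (uc d 5)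
    (uc d 6) (uc d 7) (uc d 8)

def dt (a0 a1 a2 b0 b1 b2 c0 c1 c2 : ℤ) : ℤ :=
  a0 * (b1 * c2 - b2 * c1) - b0 * (a1 * c2 - a2 * c1) + c0 * (a1 * b2 - a2 * b1)

def gokC (d : ℕ) : Bool :=
  (dt (uc d 0) (uc d 1) (uc d 2) (uc d 3) (uc d 4) (uc d 5) (uc d 6) (uc d 7)
    (uc d 8)).natAbs == 1 && 2 ^ pc d 0 + 2 ^ pc d 1 + 2 ^ pc d 2 + 2 ^ pc d 3 == 15

def gK : Kr := ⟨9, 10627578972022289595559, 664, [0,6,11,20,55,102,176,208,221],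
  [(0,0,0),(0,0,1),(0,0,2),(0,1,1),(0,1,2),(1,1,1),(0,0,3),(0,2,2),(1,1,2),(0,1,3),(1,2,2),(0,2,3),(1,1,3),(2,2,2),(1,2,3),(0,3,3),(2,2,3),(1,3,3),(2,3,3),(0,0,4),(3,3,3),(0,1,4),(0,2,4),(1,1,4),(1,2,4),(0,3,4),(2,2,4),(1,3,4),(2,3,4),(3,3,4),(0,0,5),(0,1,5),(0,4,4),(0,2,5),(1,1,5),(1,4,4),(1,2,5),(2,4,4),(0,3,5),(2,2,5),(1,3,5),(3,4,4),(2,3,5),(3,3,5),(0,4,5),(1,4,5),(4,4,4),(2,4,5),(0,0,6),(3,4,5),(0,1,6),(0,2,6),(1,1,6),(1,2,6),(0,3,6),(2,2,6),(1,3,6),(0,5,5),(2,3,6),(0,0,7),(1,5,5),(4,4,5),(0,1,7),(2,5,5),(3,3,6),(0,2,7),(1,1,7),(0,0,8),(3,5,5),(1,2,7),(0,1,8),(0,3,7),(2,2,7),(0,4,6),(0,2,8),(1,1,8),(1,3,7),(1,4,6),(1,2,8),(2,3,7),(0,3,8),(2,4,6),(2,2,8),(1,3,8),(3,3,7),(3,4,6),(2,3,8),(4,5,5),(3,3,8),(0,4,7),(1,4,7),(2,4,7),(0,4,8),(0,5,6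),(1,4,8),(3,4,7),(1,5,6),(4,4,6),(2,4,8),(2,5,6),(3,4,8),(3,5,6),(5,5,5),(0,5,7),(1,5,7),(4,4,7),(2,5,7),(0,5,8),(1,5,8),(3,5,7),(4,4,8),(4,5,6),(2,5,8),(3,5,8),(0,6,6),(1,6,6),(2,6,6),(4,5,7),(3,6,6),(4,5,8),(5,5,6),(0,6,7),(1,6,7),(2,6,7),(0,6,8),(1,6,8),(3,6,7),(4,6,6),(2,6,8),(5,5,7),(0,7,7),(3,6,8),(1,7,7),(5,5,8),(2,7,7),(0,7,8),(1,7,8),(3,7,7),(4,6,7),(2,7,8),(0,8,8),(1,8,8),(3,7,8),(4,6,8),(2,8,8),(5,6,6),(3,8,8),(4,7,7),(4,7,8),(5,6,7),(4,8,8),(5,6,8),(5,7,7),(6,6,6),(5,7,8),(5,8,8),(6,6,7),(6,6,8),(6,7,7),(6,7,8),(6,8,8),(7,7,7),(7,7,8),(7,8,8),(8,8,8)]⟩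

def gT0 : List Term :=
  [(200,[1,0,0,0,0,0,0,0,0],[0,0,0,0,1,0,0,0,0],[0,0,0,0,0,0,0,0,1]),
    (-200,[1,0,0,0,0,0,0,0,0],[0,0,0,0,0,1,0,0,0],[0,0,0,0,0,0,0,1,0]),
    (-200,[0,0,0,1,0,0,0,0,0],[0,1,0,0,0,0,0,0,0],[0,0,0,0,0,0,0,0,1]),
    (200,[0,0,0,1,0,0,0,0,0],[0,0,1,0,0,0,0,0,0],[0,0,0,0,0,0,0,1,0]),
    (200,[0,0,0,0,0,0,1,0,0],[0,1,0,0,0,0,0,0,0],[0,0,0,0,0,1,0,0,0]),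
    (-200,[0,0,0,0,0,0,1,0,0],[0,0,1,0,0,0,0,0,0],[0,0,0,0,1,0,0,0,0]),
    (-147,[1,0,0,0,0,0,0,0,0],[1,0,0,0,0,0,0,0,0],[1,0,0,0,0,0,0,0,0])]

def gT1 : List Term :=
  [(-200,[1,0,0,0,0,0,0,0,0],[0,0,0,0,1,0,0,0,0],[0,0,0,0,0,0,0,0,1]),
    (200,[1,0,0,0,0,0,0,0,0],[0,0,0,0,0,1,0,0,0],[0,0,0,0,0,0,0,1,0]),
    (200,[0,0,0,1,0,0,0,0,0],[0,1,0,0,0,0,0,0,0],[0,0,0,0,0,0,0,0,1]),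
    (-200,[0,0,0,1,0,0,0,0,0],[0,0,1,0,0,0,0,0,0],[0,0,0,0,0,0,0,1,0]),
    (-200,[0,0,0,0,0,0,1,0,0],[0,1,0,0,0,0,0,0,0],[0,0,0,0,0,1,0,0,0]),
    (200,[0,0,0,0,0,0,1,0,0],[0,0,1,0,0,0,0,0,0],[0,0,0,0,1,0,0,0,0]),
    (-147,[1,0,0,0,0,0,0,0,0],[1,0,0,0,0,0,0,0,0],[1,0,0,0,0,0,0,0,0])]

def gI (i2 i3 : ℕ) : Inp :=
  { K := gK, ks := [2, 2, 2, 4, 4, 4, 5, 5, 5], kd := 2, qs := 2 ^ 61, ell := uf 0 1 0 0,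
    t0 := gT0, t1 := gT1, br := gbr, bl := gbl i2 i3, okB := gokB, cr := gcr, okC := gokC }

end

end Pool.Agent.MP_824cb5_co.T3
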