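import Pool.Agent.MP_824cb5_co.T3.Ops

namespace Pool.Agent.MP_824cb5_co.T3

open Finset

noncomputable section

abbrev Tri := ℕ × ℕ × ℕ

/-- data of the substitution of powers of `2 * H` for the variables -/
structure Kr where
  n : ℕ
  H : ℕ
  M : ℕ
  es : List ℕ
  L : List Tri

def Kr.e (K : Kr) (a : ℕ) : ℕ := K.es.getD a 0

def Kr.x (K : Kr) : ℤ := ((2 * K.H : ℕ) : ℤ)

def Kr.E (K : Kr) (t : Tri) : ℕ := K.e t.1 + K.e t.2.1 + K.e t.2.2

def Kr.ok (K : Kr) : Prop :=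
  0 < K.H ∧ (∀ a < K.n, 3 * K.e a < K.M) ∧ (∀ a < K.n, ∀ b < K.n, K.e a = K.e b → a = b) ∧
    (∀ t ∈ K.L, t.1 < K.n ∧ t.2.1 < K.n ∧ t.2.2 < K.n) ∧
    ∀ d < K.n, ∀ b ≤ d, ∀ a ≤ b, K.L.filter (fun t => K.E (a, b, d) == K.E t) = [(a, b, d)]

def Rep (K : Kr) (v : ℕ → ℤ) (p : ℤ) (m : ℕ) (x : ℤ) : Prop :=
  ∃ g : ℕ → ℤ, p = ∑ a ∈ range K.n, g a * K.x ^ K.e a ∧ ∑ a ∈ range K.n, |g a| ≤ (m : ℤ) ∧
    ∑ a ∈ range K.n, g a * v a = x

theorem Rep.zero (K : Kr) (v : ℕ → ℤ) (m : ℕ) : Rep K v 0 m 0 :=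
  ⟨fun _ => 0, by simp, by simp, by simp⟩

theorem Rep.lin {K : Kr} {v : ℕ → ℤ} {p q x y : ℤ} {m l : ℕ} (h1 : Rep K v p m x)
    (h2 : Rep K v q l y) (c : ℤ) : Rep K v (p + c * q) (m + c.natAbs * l) (x + c * y) := by
  obtain ⟨g, a1, a2, a3⟩ := h1
  obtain ⟨f, b1, b2, b3⟩ := h2
  refine ⟨fun a => g a + c * f a, ?_, ?_, ?_⟩
  · rw [a1, b1, mul_sum, ← sum_add_distrib]; exact sum_congr rfl fun a _ => by ring
  · have : ∑ a ∈ range K.n, |g a + c * f a| ≤ ∑ a ∈ range K.n, (|g a| + |c| * |f a|) :=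
      sum_le_sum fun a _ => by rw [← abs_mul]; exact abs_add_le _ _
    rw [sum_add_distrib, ← mul_sum] at this
    have h := mul_le_mul_of_nonneg_left b2 (abs_nonneg c)
    push_cast
    linarith
  · rw [← a3, ← b3, mul_sum, ← sum_add_distrib]; exact sum_congr rfl fun a _ => by ring

theorem Rep.cast {K : Kr} {v : ℕ → ℤ} {p q x y : ℤ} {m l : ℕ} (h : Rep K v p m x) (h1 : p = q)
    (h2 : m ≤ l) (h3 : x = y) : Rep K v q l y := by
  obtain ⟨g, a1, a2, a3⟩ := h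
  exact ⟨g, h1 ▸ a1, a2.trans (by exact_mod_cast h2), h3 ▸ a3⟩

theorem Rep.neg {K : Kr} {v : ℕ → ℤ} {p x : ℤ} {m : ℕ} (h : Rep K v p m x) :
    Rep K v (-p) m (-x) :=
  ((Rep.zero K v 0).lin h (-1)).cast (by ring) (by simp) (by ring)

theorem Rep.var (K : Kr) (v : ℕ → ℤ) (a : ℕ) (ha : a < K.n) :
    Rep K v (K.x ^ K.e a) 1 (v a) := by
  refine ⟨fun b => if b = a then 1 else 0, ?_, ?_, ?_⟩
  · simp [ha]
  · simp [apply_ite abs, ha]
  · simp [ha]

theorem Rep.eq_zero {K : Kr} (hK : K.ok) {v : ℕ → ℤ} {x : ℤ} {m : ℕ} (h : Rep K v 0 m x)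
    (hm : m < K.H) : x = 0 := by
  obtain ⟨g, a1, a2, a3⟩ := h
  obtain ⟨-, k2, k3, -⟩ := hK
  let C : ℕ → ℤ := fun E => ∑ a ∈ range K.n, if K.e a = E then g a else 0
  have hC : ∀ E, |C E| < K.H := fun E => by
    have : |C E| ≤ ∑ a ∈ range K.n, |g a| := (abs_sum_le_sum_abs _ _).trans
      (sum_le_sum fun a _ => by split <;> simp)
    omega
  have h1 : ∑ E ∈ range K.M, C E * K.x ^ E = 0 := by
    rw [a1]
    simp only [C, sum_mul]
    rw [sum_comm]
    refine sum_congr rfl fun a ha => ?_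
    have := k2 a (mem_range.1 ha)
    simp [show K.e a < K.M by omega]
  have h2 : ∀ E < K.M, C E = 0 := fun E hE => by
    have e1 := digit_int K.H K.M C hC (∑ i ∈ range K.M, K.H * (2 * K.H) ^ i) (by
      simp only [add_mul, sum_add_distrib]
      rw [show ∑ i ∈ range K.M, C i * ((2 * K.H : ℕ) : ℤ) ^ i = 0 from h1]
      simp) E hE
    have e2 := digit_int K.H K.M (fun _ => 0) (fun _ => by simp; omega)
      (∑ i ∈ range K.M, K.H * (2 * K.H) ^ i) (by simp) E hE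
    omega
  rw [← a3]
  refine sum_eq_zero fun a ha => ?_
  have h3 := h2 (K.e a) (by have := k2 a (mem_range.1 ha); omega)
  have h4 : C (K.e a) = g a := by
    refine (sum_eq_single a (fun b hb hne => if_neg fun h =>
      hne (k3 b (mem_range.1 hb) a (mem_range.1 ha) h)) (fun h => (h ha).elim)).trans (if_pos rfl)
  rw [← h4, h3, zero_mul]

def S3 (n : ℕ) (f : ℕ → ℕ → ℕ → ℤ) : ℤ :=
  ∑ a ∈ range n, ∑ b ∈ range n, ∑ d ∈ range n, f a b d

theorem S3_add (n : ℕ) (f g : ℕ → ℕ → ℕ → ℤ) :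
    S3 n (fun a b d => f a b d + g a b d) = S3 n f + S3 n g := by
  simp only [S3, sum_add_distrib]

theorem S3_mul (n : ℕ) (c : ℤ) (f : ℕ → ℕ → ℕ → ℤ) :
    S3 n (fun a b d => c * f a b d) = c * S3 n f := by
  simp only [S3, mul_sum]

theorem S3_prod (n : ℕ) (f g h : ℕ → ℤ) :
    S3 n (fun a b d => f a * (g b * h d)) =
      (∑ a ∈ range n, f a) * ((∑ a ∈ range n, g a) * ∑ a ∈ range n, h a) := by
  rw [sum_mul_sum (range n) (range n) g h, sum_mul]
  simp only [S3, mul_sum]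

theorem S3_le {n : ℕ} {f g : ℕ → ℕ → ℕ → ℤ}
    (h : ∀ a < n, ∀ b < n, ∀ d < n, f a b d ≤ g a b d) : S3 n f ≤ S3 n g :=
  sum_le_sum fun a ha => sum_le_sum fun b hb => sum_le_sum fun d hd =>
    h a (mem_range.1 ha) b (mem_range.1 hb) d (mem_range.1 hd)

theorem S3_congr {n : ℕ} {f g : ℕ → ℕ → ℕ → ℤ}
    (h : ∀ a < n, ∀ b < n, ∀ d < n, f a b d = g a b d) : S3 n f = S3 n g :=
  le_antisymm (S3_le fun a ha b hb d hd => (h a ha b hb d hd).le)
    (S3_le fun a ha b hb d hd => (h a ha b hb d hd).ge)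

/-- a cubic form with packed value `p`, coefficient sum at most `l * 400 ^ 3`, value `x` -/
def Cub (K : Kr) (v : ℕ → ℤ) (p : ℤ) (l : ℕ) (x : ℤ) : Prop :=
  ∃ c : ℕ → ℕ → ℕ → ℤ, p = S3 K.n (fun a b d => c a b d * K.x ^ K.E (a, b, d)) ∧
    S3 K.n (fun a b d => |c a b d|) ≤ (l : ℤ) * 64000000 ∧
    S3 K.n (fun a b d => c a b d * (v a * (v b * v d))) = x

theorem Cub.zero (K : Kr) (v : ℕ → ℤ) : Cub K v 0 0 0 :=
  ⟨fun _ _ _ => 0, by simp [S3], by simp [S3], by simp [S3]⟩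

theorem Cub.lin {K : Kr} {v : ℕ → ℤ} {p q x y : ℤ} {m l : ℕ} (h1 : Cub K v p m x)
    (h2 : Cub K v q l y) (c : ℤ) : Cub K v (p + c * q) (m + c.natAbs * l) (x + c * y) := by
  obtain ⟨g, a1, a2, a3⟩ := h1
  obtain ⟨f, b1, b2, b3⟩ := h2
  refine ⟨fun a b d => g a b d + c * f a b d, ?_, ?_, ?_⟩
  · rw [a1, b1, ← S3_mul, ← S3_add]; exact S3_congr fun a _ b _ d _ => by ring
  · have : S3 K.n (fun a b d => |g a b d + c * f a b d|) ≤
        S3 K.n (fun a b d => |g a b d| + |c| * |f a b d|) :=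
      S3_le fun a _ b _ d _ => by rw [← abs_mul]; exact abs_add_le _ _
    rw [S3_add, S3_mul] at this
    have h := mul_le_mul_of_nonneg_left b2 (abs_nonneg c)
    push_cast
    linarith
  · rw [← a3, ← b3, ← S3_mul, ← S3_add]; exact S3_congr fun a _ b _ d _ => by ring

theorem Cub.cast {K : Kr} {v : ℕ → ℤ} {p q x y : ℤ} {m l : ℕ} (h : Cub K v p m x) (h1 : p = q)
    (h2 : m = l) (h3 : x = y) : Cub K v q l y := h1 ▸ h2 ▸ h3 ▸ h

theorem Cub.prod {K : Kr} {v : ℕ → ℤ} {p q r x y z : ℤ} (h1 : Rep K v p 400 x)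
    (h2 : Rep K v q 400 y) (h3 : Rep K v r 400 z) : Cub K v (p * (q * r)) 1 (x * y * z) := by
  obtain ⟨f, a1, a2, a3⟩ := h1
  obtain ⟨g, b1, b2, b3⟩ := h2
  obtain ⟨h, c1, c2, c3⟩ := h3
  refine ⟨fun a b d => f a * (g b * h d), ?_, ?_, ?_⟩
  · rw [a1, b1, c1, ← S3_prod]
    exact S3_congr fun a _ b _ d _ => by simp only [Kr.E, pow_add]; ring
  · simp only [abs_mul]
    rw [S3_prod K.n (fun a => |f a|) (fun a => |g a|) (fun a => |h a|)]
    have p1 : 0 ≤ ∑ a ∈ range K.n, |g a| := sum_nonneg fun _ _ => abs_nonneg _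
    have p2 : 0 ≤ ∑ a ∈ range K.n, |h a| := sum_nonneg fun _ _ => abs_nonneg _
    exact (mul_le_mul a2 (mul_le_mul b2 c2 p2 (by positivity)) (mul_nonneg p1 p2)
      (by positivity)).trans (by norm_num)
  · rw [← a3, ← b3, ← c3, mul_assoc, ← S3_prod]
    exact S3_congr fun a _ b _ d _ => by ring

theorem pick (K : Kr) (hK : K.ok) (v : ℕ → ℤ) : ∀ a < K.n, ∀ b < K.n, ∀ d < K.n,
    (K.L.map fun t => if K.E (a, b, d) = K.E t then v t.1 * (v t.2.1 * v t.2.2) else 0).sum =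
      v a * (v b * v d) := by
  have key : ∀ a b d a' b' d', d < K.n → b ≤ d → a ≤ b → K.E (a', b', d') = K.E (a, b, d) →
      v a * (v b * v d) = v a' * (v b' * v d') →
      (K.L.map fun t => if K.E (a', b', d') = K.E t then v t.1 * (v t.2.1 * v t.2.2) else 0).sum =
      v a' * (v b' * v d') := by
    intro a b d a' b' d' h1 h2 h3 h4 h5
    have := list_sum_filter (fun t => K.E (a, b, d) == K.E t)
      (fun t => v t.1 * (v t.2.1 * v t.2.2)) K.L
    rw [hK.2.2.2.2 d h1 b h2 a h3] at this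
    simpa [h4, ← h5] using this
  intro a ha b hb d hd
  rcases le_total a b with h1 | h1 <;> rcases le_total b d with h2 | h2 <;>
    rcases le_total a d with h3 | h3
  · exact key a b d a b d hd h2 h1 rfl rfl
  · exact key a b d a b d hd h2 h1 rfl rfl
  · exact key a d b a b d hb h2 h3 (by simp only [Kr.E]; ring) (by ring)
  · exact key d a b a b d hb h1 h3 (by simp only [Kr.E]; ring) (by ring)
  · exact key b a d a b d hd h3 h1 (by simp only [Kr.E]; ring) (by ring)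
  · exact key b d a a b d ha h3 h2 (by simp only [Kr.E]; ring) (by ring)
  · exact key d b a a b d ha h1 h2 (by simp only [Kr.E]; ring) (by ring)
  · exact key d b a a b d ha h1 h2 (by simp only [Kr.E]; ring) (by ring)

def wt (ks : List ℕ) (t : Tri) : ℕ := ks.getD t.1 0 * (ks.getD t.2.1 0 * ks.getD t.2.2 0)

def dg (K : Kr) (ks : List ℕ) (N : ℕ) (t : Tri) : ℕ :=
  wt ks t * ((N / (2 * K.H) ^ K.E t % (2 * K.H) - K.H) + (K.H - N / (2 * K.H) ^ K.E t % (2 * K.H)))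

theorem Cub.bound {K : Kr} (hK : K.ok) {v : ℕ → ℤ} {p x : ℤ} {m : ℕ} (h : Cub K v p m x)
    (hm : m * 64000000 < K.H) (N : ℕ)
    (hN : (N : ℤ) = p + ∑ i ∈ range K.M, (K.H : ℤ) * K.x ^ i) (ks : List ℕ) (kd : ℕ) (l : ℤ)
    (hl : 0 ≤ l) (hv : ∀ a < K.n, (kd : ℤ) * |v a| ≤ ks.getD a 0 * l) :
    -(((K.L.map (dg K ks N)).sum : ℕ) * (l * l * l)) ≤ (kd : ℤ) ^ 3 * x := by
  obtain ⟨c, a1, a2, a3⟩ := h
  let C : ℕ → ℤ := fun E => S3 K.n fun a b d => if K.E (a, b, d) = E then c a b d else 0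
  have hE : ∀ a < K.n, ∀ b < K.n, ∀ d < K.n, K.E (a, b, d) < K.M := fun a ha b hb d hd => by
    have h1 := hK.2.1 a ha
    have h2 := hK.2.1 b hb
    have h3 := hK.2.1 d hd
    simp only [Kr.E]
    omega
  have hC : ∀ E, |C E| < K.H := fun E => by
    have h1 : C E ≤ S3 K.n (fun a b d => |c a b d|) :=
      S3_le fun a _ b _ d _ => by split <;> simp [le_abs_self]
    have h2 : S3 K.n (fun a b d => -1 * |c a b d|) ≤ C E :=
      S3_le fun a _ b _ d _ => by split <;> simp [neg_abs_le]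
    rw [S3_mul] at h2
    rw [abs_lt]
    omega
  have h1 : ∑ E ∈ range K.M, C E * K.x ^ E = p := by
    rw [a1]
    simp only [C, S3, sum_mul]
    rw [sum_comm]
    refine sum_congr rfl fun a ha => ?_
    rw [sum_comm]
    refine sum_congr rfl fun b hb => ?_
    rw [sum_comm]
    refine sum_congr rfl fun d hd => ?_
    simp [hE a (mem_range.1 ha) b (mem_range.1 hb) d (mem_range.1 hd)]
  have h2 : ∀ E < K.M, ((N / (2 * K.H) ^ E % (2 * K.H) : ℕ) : ℤ) = C E + K.H :=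
    digit_int K.H K.M C hC N (by
      rw [hN, ← h1, ← sum_add_distrib]; exact sum_congr rfl fun i _ => by rw [Kr.x]; ring)
  have h3 : x = (K.L.map fun t => C (K.E t) * (v t.1 * (v t.2.1 * v t.2.2))).sum := by
    simp only [C, S3, sum_mul]
    rw [list_sum_comm, ← a3]
    refine sum_congr rfl fun a ha => ?_
    rw [list_sum_comm]
    refine sum_congr rfl fun b hb => ?_
    rw [list_sum_comm]
    refine sum_congr rfl fun d hd => ?_
    show c a b d * (v a * (v b * v d)) = _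
    rw [← pick K hK v a (mem_range.1 ha) b (mem_range.1 hb) d (mem_range.1 hd),
      ← List.sum_map_mul_left]
    congr 1
    refine List.map_congr_left fun t _ => ?_
    split <;> simp
  have h4 : ∀ t ∈ K.L, -((dg K ks N t : ℕ) * (l * l * l)) ≤
      (kd : ℤ) ^ 3 * (C (K.E t) * (v t.1 * (v t.2.1 * v t.2.2))) := by
    intro t ht
    obtain ⟨t1, t2, t3⟩ := hK.2.2.2.1 t ht
    have e1 := h2 (K.E t) (hE _ t1 _ t2 _ t3)
    have e2 : ((dg K ks N t : ℕ) : ℤ) = (wt ks t : ℤ) * |C (K.E t)| := by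
      rw [dg, Nat.cast_mul]
      congr 1
      rw [abs_eq_max_neg]
      omega
    have g4 : (kd * |v t.1|) * ((kd * |v t.2.1|) * (kd * |v t.2.2|)) ≤
        (ks.getD t.1 0 * l) * ((ks.getD t.2.1 0 * l) * (ks.getD t.2.2 0 * l)) :=
      mul_le_mul (hv _ t1) (mul_le_mul (hv _ t2) (hv _ t3) (by positivity) (by positivity))
        (by positivity) (by positivity)
    have g5 := mul_le_mul_of_nonneg_left g4 (abs_nonneg (C (K.E t)))
    have g6 := neg_abs_le (C (K.E t) * (v t.1 * (v t.2.1 * v t.2.2)))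
    rw [abs_mul, abs_mul, abs_mul] at g6
    have g7 := mul_le_mul_of_nonneg_left g6 (show (0 : ℤ) ≤ (kd : ℤ) ^ 3 by positivity)
    rw [e2, wt]
    push_cast
    linarith
  rw [h3]
  generalize K.L = L at h4
  induction L with
  | nil => simp
  | cons t L ih =>
    have i1 := h4 t (by simp)
    have i2 := ih fun u hu => h4 u (by simp [hu])
    simp only [List.map_cons, List.sum_cons, Nat.cast_add]
    linarith

end

end Pool.Agent.MP_824cb5_co.T3
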