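import Pool.Agent.MP_824cb5_co.Defs

namespace Pool.Agent.MP_824cb5_co.T3

open Finset

/-- no short relation of even norm between three elements -/
def Good3 (G : Type) [AddCommGroup G] (h : ℕ) : Prop :=
  ∃ a b c : G, ∀ x y z : ℤ, |x| + |y| + |z| ≤ 2 * h → (x + y + z) % 2 = 0 →
    x • a + y • b + z • c = 0 → x = 0 ∧ y = 0 ∧ z = 0

theorem ex_sign (x : ℤ) : ∃ e : ℤ, (∀ t, |e * t| = |t|) ∧ e * |x| = x ∧ (|x| + x) % 2 = 0 := by
  rcases le_total 0 x with h | h
  · exact ⟨1, by simp, by simp [abs_of_nonneg h], by rw [abs_of_nonneg h]; omega⟩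
  · exact ⟨-1, by simp, by simp [abs_of_nonpos h], by rw [abs_of_nonpos h]; omega⟩

theorem split3 (h : ℕ) (x y z : ℤ) (h1 : |x| + |y| + |z| ≤ 2 * h) (h2 : (x + y + z) % 2 = 0) :
    ∃ l1 l2 l3 m1 m2 m3 : ℤ, |l1| + |l2| + |l3| = h ∧ |m1| + |m2| + |m3| = h ∧
      l1 - m1 = x ∧ l2 - m2 = y ∧ l3 - m3 = z := by
  have key : ∀ X Y Z k : ℤ, 0 ≤ X → 0 ≤ Y → 0 ≤ Z → X + Y + Z = 2 * k → k ≤ h →
      ∃ l1 l2 l3 m1 m2 m3 : ℤ, |l1| + |l2| + |l3| = h ∧ |m1| + |m2| + |m3| = h ∧
        l1 - m1 = X ∧ l2 - m2 = Y ∧ l3 - m3 = Z := by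
    intro X Y Z k a1 a2 a3 a4 a5
    simp only [abs_eq_max_neg]
    by_cases c1 : k ≤ X
    · exact ⟨k, k - h, 0, k - X, k - h - Y, -Z, by omega, by omega, by omega, by omega, by omega⟩
    by_cases c2 : k ≤ X + Y
    · exact ⟨X + h - k, k - X, 0, h - k, k - X - Y, -Z, by omega, by omega, by omega, by omega,
        by omega⟩
    · exact ⟨X + h - k, Y, k - X - Y, h - k, 0, -k, by omega, by omega, by omega, by omega,
        by omega⟩
  obtain ⟨e1, a1, a2, a3⟩ := ex_sign x
  obtain ⟨e2, b1, b2, b3⟩ := ex_sign y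
  obtain ⟨e3, c1, c2, c3⟩ := ex_sign z
  obtain ⟨l1, l2, l3, m1, m2, m3, d1, d2, d3, d4, d5⟩ := key |x| |y| |z| ((|x| + |y| + |z|) / 2)
    (abs_nonneg _) (abs_nonneg _) (abs_nonneg _) (by omega) (by omega)
  exact ⟨e1 * l1, e2 * l2, e3 * l3, e1 * m1, e2 * m2, e3 * m3, by rw [a1, b1, c1, d1],
    by rw [a1, b1, c1, d2], by rw [← mul_sub, d3, a2], by rw [← mul_sub, d4, b2],
    by rw [← mul_sub, d5, c2]⟩

theorem sum_tri {G M : Type} [DecidableEq G] [AddCommMonoid M] {a b c : G} (h1 : a ≠ b)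
    (h2 : a ≠ c) (h3 : b ≠ c) (f : G → M) : ∑ t ∈ {a, b, c}, f t = f a + f b + f c := by
  rw [sum_insert (by simp [h1, h2]), sum_pair h3, add_assoc]

theorem sum_three {G M : Type} [DecidableEq G] [AddCommMonoid M] (A : Finset G) {a b c : G}
    (ha : a ∈ A) (hb : b ∈ A) (hc : c ∈ A) (h1 : a ≠ b) (h2 : a ≠ c) (h3 : b ≠ c) (f : G → M)
    (hf : ∀ t, t ≠ a → t ≠ b → t ≠ c → f t = 0) : ∑ t ∈ A, f t = f a + f b + f c := by
  rw [← sum_tri h1 h2 h3]
  refine (sum_subset ?_ ?_).symm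
  · intro t ht
    simp only [mem_insert, mem_singleton] at ht
    rcases ht with rfl | rfl | rfl <;> assumption
  · intro t _ ht
    exact hf t (fun e => ht (by simp [e])) (fun e => ht (by simp [e])) fun e => ht (by simp [e])

theorem three_le_sigma_iff (G : Type) [AddCommGroup G] [Finite G] (h : ℕ) (hh : 1 ≤ h) :
    3 ≤ sigmaPM G h ↔ Good3 G h := by
  classical
  have := Fintype.ofFinite G
  have hbd : BddAbove {k : ℕ | ∃ A : Finset G, A.Nonempty ∧ IsBh h A ∧ A.card = k} :=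
    ⟨Fintype.card G, by rintro k ⟨A, -, -, rfl⟩; exact card_le_univ A⟩
  constructor
  · intro h2
    have hne : {k : ℕ | ∃ A : Finset G, A.Nonempty ∧ IsBh h A ∧ A.card = k}.Nonempty := by
      by_contra h3
      rw [Set.not_nonempty_iff_eq_empty] at h3
      rw [sigmaPM, h3] at h2
      simp at h2
    obtain ⟨A, -, hA, hc⟩ := Nat.sSup_mem hne hbd
    obtain ⟨a, ha, b, hb, c, hc, hab, hac, hbc⟩ :=
      two_lt_card.1 (show 2 < A.card by rw [hc]; exact h2)
    refine ⟨a, b, c, fun x y z h1 h3 h4 => ?_⟩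
    obtain ⟨l1, l2, l3, m1, m2, m3, e1, e2, rfl, rfl, rfl⟩ := split3 h x y z h1 h3
    have hba : b ≠ a := hab.symm
    have hca : c ≠ a := hac.symm
    have hcb : c ≠ b := hbc.symm
    have key := hA (fun t => if t = a then l1 else if t = b then l2 else if t = c then l3 else 0)
      (fun t => if t = a then m1 else if t = b then m2 else if t = c then m3 else 0)
      (by
        rw [sum_three A ha hb hc hab hac hbc _ (fun t h5 h6 h7 => by simp [h5, h6, h7])]
        simpa [hba, hca, hcb] using e1)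
      (by
        rw [sum_three A ha hb hc hab hac hbc _ (fun t h5 h6 h7 => by simp [h5, h6, h7])]
        simpa [hba, hca, hcb] using e2)
      (by
        rw [sum_three A ha hb hc hab hac hbc _ (fun t h5 h6 h7 => by simp [h5, h6, h7]),
          sum_three A ha hb hc hab hac hbc _ (fun t h5 h6 h7 => by simp [h5, h6, h7])]
        simp only [if_true, if_neg hba, if_neg hca, if_neg hcb]
        rw [← sub_eq_zero, ← h4, sub_smul, sub_smul, sub_smul]; abel)
    have k1 := key a ha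
    have k2 := key b hb
    have k3 := key c hc
    simp only [if_true, if_neg hba, if_neg hca, if_neg hcb] at k1 k2 k3
    exact ⟨by omega, by omega, by omega⟩
  · rintro ⟨a, b, c, H⟩
    have hab : a ≠ b := by
      rintro rfl
      have := H 1 (-1) 0 (by simp only [abs_eq_max_neg]; omega) (by simp) (by simp)
      omega
    have hac : a ≠ c := by
      rintro rfl
      have := H 1 0 (-1) (by simp only [abs_eq_max_neg]; omega) (by simp) (by simp)
      omega
    have hbc : b ≠ c := by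
      rintro rfl
      have := H 0 1 (-1) (by simp only [abs_eq_max_neg]; omega) (by simp) (by simp)
      omega
    refine le_csSup hbd ⟨{a, b, c}, by simp, ?_, card_eq_three.2 ⟨a, b, c, hab, hac, hbc, rfl⟩⟩
    intro lam mu e1 e2 e3
    rw [sum_tri hab hac hbc] at e1 e2
    rw [sum_tri hab hac hbc, sum_tri hab hac hbc] at e3
    obtain ⟨-, -, -, p1⟩ := ex_sign (lam a)
    obtain ⟨-, -, -, p2⟩ := ex_sign (lam b)
    obtain ⟨-, -, -, p3⟩ := ex_sign (lam c)
    obtain ⟨-, -, -, p4⟩ := ex_sign (mu a)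
    obtain ⟨-, -, -, p5⟩ := ex_sign (mu b)
    obtain ⟨-, -, -, p6⟩ := ex_sign (mu c)
    have q1 := abs_sub (lam a) (mu a)
    have q2 := abs_sub (lam b) (mu b)
    have q3 := abs_sub (lam c) (mu c)
    have := H (lam a - mu a) (lam b - mu b) (lam c - mu c) (by omega) (by omega)
      (by rw [sub_smul, sub_smul, sub_smul, ← sub_eq_zero.2 e3]; abel)
    intro t ht
    simp only [mem_insert, mem_singleton] at ht
    rcases ht with rfl | rfl | rfl <;> omega

theorem card_quot (G : Type) [AddCommGroup G] (a : G) :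
    Nat.card G = Nat.card (G ⧸ AddSubgroup.zmultiples a) * addOrderOf a := by
  rw [AddSubgroup.card_eq_card_quotient_mul_card_addSubgroup (AddSubgroup.zmultiples a),
    Nat.card_zmultiples]

/-- triangular relations with small diagonal -/
theorem hnf (G : Type) [AddCommGroup G] [Finite G] (a b c : G) :
    ∃ d1 d2 d3 x y z : ℕ, 0 < d3 ∧ x < d1 ∧ y < d1 ∧ z < d2 ∧ d1 * d2 * d3 ≤ Nat.card G ∧
      (d1 : ℤ) • a = 0 ∧ (x : ℤ) • a + (d2 : ℤ) • b = 0 ∧
        (y : ℤ) • a + (z : ℤ) • b + (d3 : ℤ) • c = 0 := by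
  let f := QuotientAddGroup.mk' (AddSubgroup.zmultiples a)
  let g := QuotientAddGroup.mk' (AddSubgroup.zmultiples (f b))
  have p1 : (0 : ℤ) < addOrderOf a := by exact_mod_cast addOrderOf_pos a
  have p2 : (0 : ℤ) < addOrderOf (f b) := by exact_mod_cast addOrderOf_pos (f b)
  have r1 : (addOrderOf a : ℤ) • a = 0 := by rw [natCast_zsmul, addOrderOf_nsmul_eq_zero]
  obtain ⟨X, r2⟩ : (addOrderOf (f b) : ℤ) • b ∈ AddSubgroup.zmultiples a := by
    rw [← QuotientAddGroup.eq_zero_iff]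
    show f _ = 0
    rw [map_zsmul, natCast_zsmul, addOrderOf_nsmul_eq_zero]
  obtain ⟨Z, r3⟩ : (addOrderOf (g (f c)) : ℤ) • f c ∈ AddSubgroup.zmultiples (f b) := by
    rw [← QuotientAddGroup.eq_zero_iff]
    show g _ = 0
    rw [map_zsmul, natCast_zsmul, addOrderOf_nsmul_eq_zero]
  obtain ⟨Y, r4⟩ : (addOrderOf (g (f c)) : ℤ) • c - Z • b ∈ AddSubgroup.zmultiples a := by
    rw [← QuotientAddGroup.eq_zero_iff]
    show f _ = 0
    rw [map_sub, map_zsmul, map_zsmul, ← r3]
    exact sub_self _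
  have hc : addOrderOf a * addOrderOf (f b) * addOrderOf (g (f c)) ≤ Nat.card G := by
    rw [card_quot G a, card_quot _ (f b)]
    calc _ = addOrderOf (g (f c)) * addOrderOf (f b) * addOrderOf a := by ring
      _ ≤ _ := Nat.mul_le_mul_right _ (Nat.mul_le_mul_right _ addOrderOf_le_card)
  have p3 := addOrderOf_pos (g (f c))
  generalize addOrderOf (g (f c)) = d3 at *
  generalize addOrderOf (f b) = d2 at *
  generalize addOrderOf a = d1 at *
  have s2 : X • a = (d2 : ℤ) • b := r2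
  have s4 : Y • a = (d3 : ℤ) • c - Z • b := r4
  have m1 := Int.emod_nonneg (-X) p1.ne'
  have m2 := Int.emod_lt_of_pos (-X) p1
  have m3 := Int.emod_nonneg (-Z) p2.ne'
  have m4 := Int.emod_lt_of_pos (-Z) p2
  have m5 := Int.emod_nonneg (-Z / d2 * X - Y) p1.ne'
  have m6 := Int.emod_lt_of_pos (-Z / d2 * X - Y) p1
  refine ⟨d1, d2, d3, (-X % d1).toNat, ((-Z / d2 * X - Y) % d1).toNat, (-Z % d2).toNat, p3,
    by omega, by omega, by omega, hc, r1, ?_, ?_⟩
  · rw [Int.toNat_of_nonneg m1, Int.emod_def]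
    linear_combination (norm := module) -s2 - (-X / d1) • r1
  · rw [Int.toNat_of_nonneg m5, Int.toNat_of_nonneg m3, Int.emod_def, Int.emod_def]
    linear_combination (norm := module) (-Z / d2) • s2 - s4 - ((-Z / d2 * X - Y) / d1) • r1

end Pool.Agent.MP_824cb5_co.T3
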