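import Mathlib

namespace Pool.Agent.MP_824cb5_co.T3

open Finset

noncomputable section

/-- evaluate a natural number before passing it on -/
def fN {β : Type} (n : ℕ) (k : ℕ → β) : β :=
  Nat.rec (motive := fun _ => β) (k 0) (fun m _ => k (Nat.succ m)) n

theorem fN_eq {β : Type} (n : ℕ) (k : ℕ → β) : fN n k = k n := by cases n <;> rfl

def fLN {β : Type} (l : List ℕ) : (List ℕ → β) → β :=
  List.rec (motive := fun _ => (List ℕ → β) → β) (fun k => k [])
    (fun x _ ih k => fN x fun y => ih fun r => k (y :: r)) l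

theorem fLN_eq {β : Type} (l : List ℕ) (k : List ℕ → β) : fLN l k = k l := by
  induction l generalizing k with
  | nil => rfl
  | cons x t ih =>
    show fN x (fun y => fLN t fun r => k (y :: r)) = _
    rw [fN_eq, ih]

def nth {α : Type} (d : α) (l : List α) : ℕ → α :=
  List.rec (motive := fun _ => ℕ → α) (fun _ => d)
    (fun e _ ih i => Nat.rec (motive := fun _ => α) e (fun j _ => ih j) i) l

theorem nth_prop {α : Type} (p : α → Prop) (d : α) (hd : p d) (l : List α)
    (hl : ∀ e ∈ l, p e) (i : ℕ) : p (nth d l i) := by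
  induction l generalizing i with
  | nil => exact hd
  | cons e t ih =>
    cases i with
    | zero => exact hl e (by simp)
    | succ j => exact ih (fun x hx => hl x (by simp [hx])) j

def accS (A1 A2 A3 : ℤ) : List ℤ → List ℤ → List ℤ → List ℤ → List ℤ
  | [], _, _, _ => []
  | t :: ts, g1, g2, g3 => (t + g1.headD 0 * A1 + g2.headD 0 * A2 + g3.headD 0 * A3) ::
      accS A1 A2 A3 ts g1.tail g2.tail g3.tail

theorem getD_succ (g : List ℤ) (a : ℕ) : g.getD (a + 1) 0 = g.tail.getD a 0 := by
  cases g <;> simp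

theorem getD_zero (g : List ℤ) : g.getD 0 0 = g.headD 0 := by cases g <;> simp

theorem accS_length (A1 A2 A3 : ℤ) (T g1 g2 g3 : List ℤ) :
    (accS A1 A2 A3 T g1 g2 g3).length = T.length := by
  induction T generalizing g1 g2 g3 with
  | nil => rfl
  | cons t ts ih => simp [accS, ih]

theorem accS_getD (A1 A2 A3 : ℤ) (T g1 g2 g3 : List ℤ) (a : ℕ) (ha : a < T.length) :
    (accS A1 A2 A3 T g1 g2 g3).getD a 0 =
      T.getD a 0 + g1.getD a 0 * A1 + g2.getD a 0 * A2 + g3.getD a 0 * A3 := by
  induction T generalizing g1 g2 g3 a with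
  | nil => simp at ha
  | cons t ts ih =>
    cases a with
    | zero => rw [getD_zero g1, getD_zero g2, getD_zero g3]; rfl
    | succ b =>
      rw [getD_succ g1, getD_succ g2, getD_succ g3]
      exact ih g1.tail g2.tail g3.tail b (by simpa using ha)

/-- value of a linear form -/
def dot (n : ℕ) (g : List ℤ) (v : ℕ → ℤ) : ℤ := ∑ a ∈ range n, g.getD a 0 * v a

theorem dot_nil (n : ℕ) (v : ℕ → ℤ) : dot n [] v = 0 := by simp [dot]

theorem dot_accS (n : ℕ) (A1 A2 A3 : ℤ) (T g1 g2 g3 : List ℤ) (hT : T.length = n) (v : ℕ → ℤ) :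
    dot n (accS A1 A2 A3 T g1 g2 g3) v =
      dot n T v + A1 * dot n g1 v + A2 * dot n g2 v + A3 * dot n g3 v := by
  simp only [dot, mul_sum, ← sum_add_distrib]
  refine sum_congr rfl fun a ha => ?_
  rw [accS_getD _ _ _ _ _ _ _ _ (by rw [hT]; exact mem_range.1 ha)]
  ring

theorem dot_replicate (n : ℕ) (v : ℕ → ℤ) : dot n (List.replicate n 0) v = 0 := by
  refine sum_eq_zero fun a _ => ?_
  have : (List.replicate n (0 : ℤ)).getD a 0 = 0 := by
    rw [List.getD_eq_getElem?_getD, List.getElem?_replicate]; split <;> rfl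
  rw [this, zero_mul]


def unN {β : Type} (g : List ℕ) (k : ℕ → List ℕ → β) : β :=
  List.rec (motive := fun _ => β) (k 0 []) (fun x r _ => k x r) g

theorem unN_eq {β : Type} (g : List ℕ) (k : ℕ → List ℕ → β) :
    unN g k = k (g.headD 0) g.tail := by cases g <;> rfl

def ifz {β : Type} (c : ℕ) (a b : β) : β := Nat.rec (motive := fun _ => β) a (fun _ _ => b) c

theorem ifz_or {β : Type} (c : ℕ) (a b : β) : ifz c a b = a ∨ ifz c a b = b := by
  cases c
  · exact Or.inl rfl
  · exact Or.inr rfl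

theorem digit_eq (X : ℕ) (E : ℕ) : ∀ (M : ℕ) (d : ℕ → ℕ), (∀ i < M, d i < X) → E < M →
    (∑ i ∈ range M, d i * X ^ i) / X ^ E % X = d E := by
  induction E with
  | zero =>
    intro M d hd hM
    obtain ⟨m, rfl⟩ : ∃ m, M = m + 1 := ⟨M - 1, by omega⟩
    have e : ∑ i ∈ range (m + 1), d i * X ^ i = d 0 + X * ∑ i ∈ range m, d (i + 1) * X ^ i := by
      rw [sum_range_succ', mul_sum, add_comm, pow_zero, mul_one]
      congr 1
      exact sum_congr rfl fun i _ => by ring
    rw [e, pow_zero, Nat.div_one, Nat.add_mul_mod_self_left, Nat.mod_eq_of_lt (hd 0 hM)]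
  | succ k ih =>
    intro M d hd hM
    obtain ⟨m, rfl⟩ : ∃ m, M = m + 1 := ⟨M - 1, by omega⟩
    have e : ∑ i ∈ range (m + 1), d i * X ^ i = d 0 + X * ∑ i ∈ range m, d (i + 1) * X ^ i := by
      rw [sum_range_succ', mul_sum, add_comm, pow_zero, mul_one]
      congr 1
      exact sum_congr rfl fun i _ => by ring
    have h0 := hd 0 (by omega)
    rw [e, pow_succ', ← Nat.div_div_eq_div_mul, Nat.add_mul_div_left _ _ (by omega),
      Nat.div_eq_of_lt h0, zero_add]
    exact ih m (fun i => d (i + 1)) (fun i hi => hd (i + 1) (by omega)) (by omega)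

/-- signed digits can be read off after a shift -/
theorem digit_int (H M : ℕ) (C : ℕ → ℤ) (hC : ∀ i, |C i| < H) (N : ℕ)
    (hN : (N : ℤ) = ∑ i ∈ range M, (C i + H) * ((2 * H : ℕ) : ℤ) ^ i) (E : ℕ) (hE : E < M) :
    ((N / (2 * H) ^ E % (2 * H) : ℕ) : ℤ) = C E + H := by
  have h1 : ∀ i, 0 ≤ C i + H ∧ C i + H < 2 * H := fun i => by
    have := abs_lt.1 (hC i); omega
  have h2 : N = ∑ i ∈ range M, (C i + H).toNat * (2 * H) ^ i := by
    apply Nat.cast_injective (R := ℤ)
    rw [hN, Nat.cast_sum]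
    refine sum_congr rfl fun i _ => ?_
    rw [Nat.cast_mul (C i + H).toNat, Int.toNat_of_nonneg (h1 i).1, Nat.cast_pow]
  rw [h2, digit_eq (2 * H) E M (fun i => (C i + H).toNat) (fun i _ => by have := h1 i; omega) hE,
    Int.toNat_of_nonneg (h1 E).1]

theorem list_sum_comm {α ι : Type} (s : Finset ι) (f : ι → α → ℤ) (L : List α) :
    (L.map fun t => ∑ i ∈ s, f i t).sum = ∑ i ∈ s, (L.map (f i)).sum := by
  induction L with
  | nil => simp
  | cons t L ih => simp [ih, sum_add_distrib]

theorem list_sum_filter {α : Type} (p : α → Bool) (f : α → ℤ) (L : List α) :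
    (L.map fun t => if p t = true then f t else 0).sum = ((L.filter p).map f).sum := by
  induction L with
  | nil => rfl
  | cons t L ih => cases h : p t <;> simp [h, ih]

end

end Pool.Agent.MP_824cb5_co.T3
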